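import Pool.Agent.Work.MP_70e905_nt.Q4.EdgeStone

/-!
# Module StonePairs : Erdos-Stone for a relation on a finite set of naturals

Take `m₀ ≥ max 2 (m₀ of edgeStone K L ε)`. Apply `edgeStone` to the graph `G` on the subtype
`A` (`V := {x // x ∈ A}`, or `A` as a type) with `G.Adj a b ↔ a ≠ b ∧ ¬ good a b` (symmetric by
`hs`). If the conclusion fails, the number of ordered pairs of `A.offDiag` that are not good is
`> (1 - 1/K + ε) m₀ (m₀ - 1)`; it is twice `#G.edgeFinset` (e.g. `G.sum_degrees_eq_twice_card_edges`,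
or `SimpleGraph.dart` counting), so `G` contains `completeEquipartiteGraph (K+1) L`; a copy is
an injective `h : Fin (K+1) × Fin L → A` with `¬ good (h s) (h t)` whenever `s.1 ≠ t.1`,
which contradicts the hypothesis.
-/

namespace PoolQ4

open Finset SimpleGraph

theorem stonePairs (K L : ℕ) (hK : 1 ≤ K) {ε : ℝ} (hε : 0 < ε) :
    ∃ m₀ : ℕ, 2 ≤ m₀ ∧ ∀ (A : Finset ℕ) (good : ℕ → ℕ → Prop) [DecidableRel good],
      (∀ a b, good a b → good b a) → #A = m₀ →
      (∀ h : Fin (K + 1) × Fin L → ℕ, Function.Injective h → (∀ s, h s ∈ A) →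
        ∃ s t, s.1 ≠ t.1 ∧ good (h s) (h t)) →
      (1 / (K : ℝ) - ε) * ((m₀ : ℝ) * ((m₀ : ℝ) - 1)) ≤
        (#{p ∈ A.offDiag | good p.1 p.2} : ℝ) := by
  obtain ⟨m₁, hm₁⟩ := edgeStone K L hK hε
  refine ⟨max 2 m₁, le_max_left _ _, fun A good _ hs hA hh => ?_⟩
  set m₀ := max 2 m₁ with hm₀
  by_contra hcon
  push Not at hcon
  let G : SimpleGraph A :=
    { Adj := fun a b => a ≠ b ∧ ¬ good a b
      symm := ⟨fun a b h => ⟨h.1.symm, fun h2 => h.2 (hs _ _ h2)⟩⟩
      loopless := ⟨fun a h => h.1 rfl⟩ }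
  have hcard : Fintype.card A = m₀ := by rw [Fintype.card_coe, hA]
  let _ : DecidableRel G.Adj := fun a b => inferInstanceAs (Decidable (a ≠ b ∧ ¬ good a b))
  have hbad : 2 * #G.edgeFinset = #{p ∈ A.offDiag | ¬ good p.1 p.2} := by
    rw [← G.sum_degrees_eq_twice_card_edges]
    have h1 : ∀ v : A, G.degree v = #{b ∈ A | (v : ℕ) ≠ b ∧ ¬ good v b} := by
      intro v
      rw [← SimpleGraph.card_neighborFinset_eq_degree, SimpleGraph.neighborFinset_eq_filter]
      apply Finset.card_bij (fun (b : A) _ => (b : ℕ))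
      · intro b hb
        rw [mem_filter] at hb ⊢
        refine ⟨b.2, ?_, hb.2.2⟩
        intro h; exact hb.2.1 (Subtype.ext h)
      · intro a _ b _ h
        exact Subtype.ext h
      · intro b hb
        rw [mem_filter] at hb
        refine ⟨⟨b, hb.1⟩, ?_, rfl⟩
        rw [mem_filter]
        refine ⟨mem_univ _, ?_, hb.2.2⟩
        intro h; exact hb.2.1 (congrArg Subtype.val h)
    rw [Finset.sum_congr rfl (fun v _ => h1 v)]
    rw [Finset.sum_coe_sort A (fun v => #{b ∈ A | v ≠ b ∧ ¬ good v b})]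
    have h2 : ∀ v ∈ A, #{b ∈ A | v ≠ b ∧ ¬ good v b} =
        ∑ b ∈ A, if (v ≠ b ∧ ¬ good v b) then 1 else 0 := fun v _ => Finset.card_filter _ _
    rw [Finset.sum_congr rfl h2, ← Finset.sum_product', ← Finset.card_filter]
    congr 1
    ext ⟨a, b⟩
    simp only [mem_filter, mem_product, mem_offDiag]
    tauto
  have htot : (#{p ∈ A.offDiag | good p.1 p.2} : ℝ) + (#{p ∈ A.offDiag | ¬ good p.1 p.2} : ℝ) =
      (m₀ : ℝ) * ((m₀ : ℝ) - 1) := by
    have h1 := Finset.card_filter_add_card_filter_not (s := A.offDiag) (fun p => good p.1 p.2)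
    rw [Finset.offDiag_card, hA] at h1
    have h2 : m₀ ≤ m₀ * m₀ := Nat.le_mul_self m₀
    have h3 : ((m₀ * m₀ - m₀ : ℕ) : ℝ) = (m₀ : ℝ) * ((m₀ : ℝ) - 1) := by
      rw [Nat.cast_sub h2]; push_cast; ring
    rw [← h3, ← h1]
    push_cast
    rfl
  have hedge : (1 - 1 / (K : ℝ) + ε) * ((Fintype.card A : ℝ) * ((Fintype.card A : ℝ) - 1) / 2) ≤
        (#G.edgeFinset : ℝ) := by
    rw [hcard]
    have h1 : 2 * (#G.edgeFinset : ℝ) = (#{p ∈ A.offDiag | ¬ good p.1 p.2} : ℝ) := by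
      exact_mod_cast hbad
    nlinarith [h1, htot, hcon]
  obtain ⟨φ⟩ := hm₁ A G (by rw [hcard]; exact le_max_right _ _) hedge
  obtain ⟨s, t, hst, hgood⟩ := hh (fun s => (φ s : ℕ))
    (fun a b h => φ.injective (Subtype.ext h)) (fun s => (φ s).2)
  have hadj : (completeEquipartiteGraph (K + 1) L).Adj s t := by
    rw [completeEquipartiteGraph_adj]; exact hst
  have := φ.toHom.map_adj hadj
  exact this.2 hgood

end PoolQ4
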