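import Mathlib

/-!
# Module SubsetAvg : averaging over the subsets of size `m₀`

Let `N = #V`, `R` = number of rough ordered pairs in `V.offDiag`, `G` = number of good ones.
If `N < m₀` then `N (N-1) - m₀^2 (R+1) ≤ 0` and the claim is trivial (`c ≥ 0`). Otherwise count the
pairs `(A, p)` with `A ∈ powersetCard m₀ V`, `p ∈ A.offDiag` good: every `p ∈ V.offDiag` lies in
exactly `(N-2).choose (m₀-2)` sets `A`, so the sum over `A` of the number of good pairs of `A` is
`G * (N-2).choose (m₀-2)`. The number of `A` containing a rough pair is at most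
`R * (N-2).choose (m₀-2)`. Hence
`G (N-2 choose m₀-2) ≥ c m₀ (m₀-1) ((N choose m₀) - R (N-2 choose m₀-2))` and
`m₀ (m₀-1) (N choose m₀) = N (N-1) (N-2 choose m₀-2)` (`Nat.succ_mul_choose_eq` twice).
Useful: the subsets of `V` of size `m₀` containing `{a, b}` are in bijection with the subsets of
`V \ {a, b}` of size `m₀ - 2` (`A ↦ A \ {a, b}`, inverse `B ↦ B ∪ {a, b}`).
-/

namespace PoolQ4

open Finset

private lemma sa_count (V : Finset ℕ) (k a b : ℕ) (ha : a ∈ V) (hb : b ∈ V) (hab : a ≠ b) :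
    #{A ∈ powersetCard (k + 2) V | a ∈ A ∧ b ∈ A} = (#V - 2).choose k := by
  have h1 : #((V.erase a).erase b) = #V - 2 := by
    rw [Finset.card_erase_of_mem (Finset.mem_erase.2 ⟨hab.symm, hb⟩), Finset.card_erase_of_mem ha]
    omega
  rw [← h1, ← Finset.card_powersetCard]
  refine Finset.card_bij' (fun A _ => (A.erase a).erase b) (fun B _ => insert a (insert b B)) ?_ ?_ ?_ ?_
  · intro A hA
    rw [mem_filter, mem_powersetCard] at hA
    rw [mem_powersetCard]
    refine ⟨Finset.erase_subset_erase _ (Finset.erase_subset_erase _ hA.1.1), ?_⟩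
    rw [Finset.card_erase_of_mem (Finset.mem_erase.2 ⟨hab.symm, hA.2.2⟩),
      Finset.card_erase_of_mem hA.2.1, hA.1.2]
    omega
  · intro B hB
    rw [mem_powersetCard] at hB
    rw [mem_filter, mem_powersetCard]
    have hbB : b ∉ B := fun h => by
      have := hB.1 h
      simp at this
    have haB : a ∉ insert b B := by
      rw [mem_insert]
      rintro (h | h)
      · exact hab h
      · have := hB.1 h
        simp at this
    refine ⟨⟨?_, ?_⟩, ?_, ?_⟩
    · intro x hx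
      rw [mem_insert, mem_insert] at hx
      rcases hx with h | h | h
      · rw [h]; exact ha
      · rw [h]; exact hb
      · have := hB.1 h
        rw [mem_erase, mem_erase] at this
        exact this.2.2
    · rw [Finset.card_insert_of_notMem haB, Finset.card_insert_of_notMem hbB, hB.2]
    · exact mem_insert_self _ _
    · exact mem_insert_of_mem (mem_insert_self _ _)
  · intro A hA
    rw [mem_filter, mem_powersetCard] at hA
    ext x
    simp only [mem_insert, mem_erase]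
    constructor
    · rintro (h | h | h)
      · rw [h]; exact hA.2.1
      · rw [h]; exact hA.2.2
      · exact h.2.2
    · intro h
      by_cases h1 : x = a
      · exact Or.inl h1
      · by_cases h2 : x = b
        · exact Or.inr (Or.inl h2)
        · exact Or.inr (Or.inr ⟨h2, h1, h⟩)
  · intro B hB
    rw [mem_powersetCard] at hB
    ext x
    simp only [mem_insert, mem_erase]
    constructor
    · rintro ⟨h1, h2, h | h | h⟩
      · exact absurd h h2
      · exact absurd h h1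
      · exact h
    · intro h
      have := hB.1 h
      rw [mem_erase, mem_erase] at this
      exact ⟨this.1, this.2.1, Or.inr (Or.inr h)⟩

private lemma sa_sum (V : Finset ℕ) (k : ℕ) (g : ℕ → ℕ → Prop) [DecidableRel g] :
    ∑ A ∈ powersetCard (k + 2) V, #{p ∈ A.offDiag | g p.1 p.2} =
      #{p ∈ V.offDiag | g p.1 p.2} * (#V - 2).choose k := by
  have h1 : ∀ A ∈ powersetCard (k + 2) V, #{p ∈ A.offDiag | g p.1 p.2} =
      ∑ p ∈ {p ∈ V.offDiag | g p.1 p.2}, if (p.1 ∈ A ∧ p.2 ∈ A) then 1 else 0 := by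
    intro A hA
    rw [mem_powersetCard] at hA
    rw [← Finset.card_filter]
    congr 1
    ext ⟨a, b⟩
    simp only [mem_filter, mem_offDiag]
    constructor
    · rintro ⟨⟨h1, h2, h3⟩, h4⟩
      exact ⟨⟨⟨hA.1 h1, hA.1 h2, h3⟩, h4⟩, h1, h2⟩
    · rintro ⟨⟨⟨_, _, h3⟩, h4⟩, h1, h2⟩
      exact ⟨⟨h1, h2, h3⟩, h4⟩
  rw [Finset.sum_congr rfl h1, Finset.sum_comm]
  have h2 : ∀ p ∈ {p ∈ V.offDiag | g p.1 p.2},
      (∑ A ∈ powersetCard (k + 2) V, if (p.1 ∈ A ∧ p.2 ∈ A) then 1 else 0) =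
      (#V - 2).choose k := by
    intro p hp
    rw [mem_filter, mem_offDiag] at hp
    rw [← Finset.card_filter, sa_count V k p.1 p.2 hp.1.1 hp.1.2.1 hp.1.2.2]
  rw [Finset.sum_congr rfl h2, Finset.sum_const, smul_eq_mul]

theorem subsetAvg (V : Finset ℕ) (m₀ : ℕ) (hm : 2 ≤ m₀) (good rough : ℕ → ℕ → Prop)
    [DecidableRel good] [DecidableRel rough] (c : ℝ) (hc : 0 ≤ c)
    (H : ∀ A : Finset ℕ, A ⊆ V → #A = m₀ → (∀ p ∈ A.offDiag, ¬ rough p.1 p.2) →
      c * ((m₀ : ℝ) * ((m₀ : ℝ) - 1)) ≤ (#{p ∈ A.offDiag | good p.1 p.2} : ℝ)) :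
    c * ((#V : ℝ) * ((#V : ℝ) - 1) -
        (m₀ : ℝ) ^ 2 * ((#{p ∈ V.offDiag | rough p.1 p.2} : ℝ) + 1)) ≤
      (#{p ∈ V.offDiag | good p.1 p.2} : ℝ) := by
  set R : ℕ := #{p ∈ V.offDiag | rough p.1 p.2} with hR
  set Gd : ℕ := #{p ∈ V.offDiag | good p.1 p.2} with hGd
  have hR0 : (0 : ℝ) ≤ (R : ℝ) := Nat.cast_nonneg _
  have hG0 : (0 : ℝ) ≤ (Gd : ℝ) := Nat.cast_nonneg _
  have hm2 : (2 : ℝ) ≤ m₀ := by exact_mod_cast hm
  rcases lt_or_ge (#V) m₀ with hlt | hge
  · have hV : (#V : ℝ) ≤ m₀ := by exact_mod_cast hlt.le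
    have hV0 : (0 : ℝ) ≤ (#V : ℝ) := Nat.cast_nonneg _
    have h1 : (#V : ℝ) * ((#V : ℝ) - 1) - (m₀ : ℝ) ^ 2 * ((R : ℝ) + 1) ≤ 0 := by
      nlinarith [mul_nonneg (sq_nonneg (m₀ : ℝ)) hR0]
    exact le_trans (mul_nonpos_of_nonneg_of_nonpos hc h1) hG0
  · obtain ⟨k, rfl⟩ : ∃ k, m₀ = k + 2 := ⟨m₀ - 2, by omega⟩
    set C : ℕ := (#V - 2).choose k with hC
    have hCpos : (0 : ℝ) < (C : ℝ) := by
      exact_mod_cast Nat.choose_pos (by omega)
    have hgood := sa_sum V k good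
    have hrough := sa_sum V k rough
    rw [← hGd, ← hC] at hgood
    rw [← hR, ← hC] at hrough
    -- the number of sets with a rough pair
    let B : Finset (Finset ℕ) := {A ∈ powersetCard (k + 2) V | ∃ p ∈ A.offDiag, rough p.1 p.2}
    let Bc : Finset (Finset ℕ) := {A ∈ powersetCard (k + 2) V | ¬ ∃ p ∈ A.offDiag, rough p.1 p.2}
    have hB : #B ≤ R * C := by
      rw [← hrough]
      calc #B = ∑ A ∈ B, 1 := by simp
        _ ≤ ∑ A ∈ B, #{p ∈ A.offDiag | rough p.1 p.2} := by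
            apply Finset.sum_le_sum
            intro A hA
            rw [mem_filter] at hA
            obtain ⟨p, hp, hrp⟩ := hA.2
            exact Finset.card_pos.2 ⟨p, by rw [mem_filter]; exact ⟨hp, hrp⟩⟩
        _ ≤ _ := Finset.sum_le_sum_of_subset (Finset.filter_subset _ _)
    have hBBc : #B + #Bc = (#V).choose (k + 2) := by
      rw [← Finset.card_powersetCard]
      exact Finset.card_filter_add_card_filter_not _
    have hlow : (#Bc : ℝ) * (c * (((k + 2 : ℕ) : ℝ) * (((k + 2 : ℕ) : ℝ) - 1))) ≤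
        (Gd : ℝ) * (C : ℝ) := by
      have h1 : (Gd : ℝ) * (C : ℝ) = ∑ A ∈ powersetCard (k + 2) V,
          (#{p ∈ A.offDiag | good p.1 p.2} : ℝ) := by
        rw [← Nat.cast_mul, ← hgood]; push_cast; rfl
      rw [h1]
      calc (#Bc : ℝ) * (c * (((k + 2 : ℕ) : ℝ) * (((k + 2 : ℕ) : ℝ) - 1)))
          = ∑ A ∈ Bc, c * (((k + 2 : ℕ) : ℝ) * (((k + 2 : ℕ) : ℝ) - 1)) := by
            rw [Finset.sum_const, nsmul_eq_mul]
        _ ≤ ∑ A ∈ Bc, (#{p ∈ A.offDiag | good p.1 p.2} : ℝ) := by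
            apply Finset.sum_le_sum
            intro A hA
            rw [mem_filter, mem_powersetCard] at hA
            apply H A hA.1.1 hA.1.2
            intro p hp hrp
            exact hA.2 ⟨p, hp, hrp⟩
        _ ≤ _ := by
            apply Finset.sum_le_sum_of_subset_of_nonneg (Finset.filter_subset _ _)
            intro A _ _
            exact Nat.cast_nonneg _
    have hchoose : (((k + 2 : ℕ) : ℝ) * (((k + 2 : ℕ) : ℝ) - 1)) * ((#V).choose (k + 2) : ℝ) =
        (#V : ℝ) * ((#V : ℝ) - 1) * (C : ℝ) := by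
      obtain ⟨n, hn⟩ : ∃ n, #V = n + 2 := ⟨#V - 2, by omega⟩
      rw [hC, hn]
      have e1 := Nat.add_one_mul_choose_eq (n + 1) (k + 1)
      have e2 := Nat.add_one_mul_choose_eq n k
      have e1' : ((n : ℝ) + 2) * ((n + 1).choose (k + 1) : ℝ) =
          ((n + 2).choose (k + 2) : ℝ) * ((k : ℝ) + 2) := by
        have := congrArg (Nat.cast (R := ℝ)) e1
        push_cast at this
        linarith [this]
      have e2' : ((n : ℝ) + 1) * ((n).choose (k) : ℝ) =
          ((n + 1).choose (k + 1) : ℝ) * ((k : ℝ) + 1) := by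
        have := congrArg (Nat.cast (R := ℝ)) e2
        push_cast at this
        linarith [this]
      have h3 : n + 2 - 2 = n := by omega
      rw [h3]
      push_cast
      linear_combination (-((k : ℝ) + 1)) * e1' - ((n : ℝ) + 2) * e2'
    have hBr : (#B : ℝ) ≤ (R : ℝ) * (C : ℝ) := by exact_mod_cast hB
    have hBBcr : (#B : ℝ) + (#Bc : ℝ) = ((#V).choose (k + 2) : ℝ) := by exact_mod_cast hBBc
    set q : ℝ := ((k + 2 : ℕ) : ℝ) * (((k + 2 : ℕ) : ℝ) - 1) with hq
    have hq0 : 0 ≤ q := by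
      rw [hq]; exact mul_nonneg (by linarith) (by linarith)
    have hqle : q ≤ ((k + 2 : ℕ) : ℝ) ^ 2 := by
      rw [hq]; nlinarith
    have hmain : c * ((#V : ℝ) * ((#V : ℝ) - 1) - q * (R : ℝ)) * (C : ℝ) ≤ (Gd : ℝ) * (C : ℝ) := by
      have h1 : (#Bc : ℝ) ≥ ((#V).choose (k + 2) : ℝ) - (R : ℝ) * (C : ℝ) := by linarith
      have h2 : (((#V).choose (k + 2) : ℝ) - (R : ℝ) * (C : ℝ)) * (c * q) ≤ (#Bc : ℝ) * (c * q) :=
        mul_le_mul_of_nonneg_right h1 (mul_nonneg hc hq0)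
      have h3 : (((#V).choose (k + 2) : ℝ) - (R : ℝ) * (C : ℝ)) * (c * q) =
          c * ((#V : ℝ) * ((#V : ℝ) - 1) - q * (R : ℝ)) * (C : ℝ) := by
        linear_combination c * hchoose
      linarith
    have hfin : c * ((#V : ℝ) * ((#V : ℝ) - 1) - q * (R : ℝ)) ≤ (Gd : ℝ) :=
      le_of_mul_le_mul_right hmain hCpos
    have hstep : c * ((#V : ℝ) * ((#V : ℝ) - 1) - ((k + 2 : ℕ) : ℝ) ^ 2 * ((R : ℝ) + 1)) ≤
        c * ((#V : ℝ) * ((#V : ℝ) - 1) - q * (R : ℝ)) := by
      apply mul_le_mul_of_nonneg_left _ hc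
      have h1 : q * (R : ℝ) ≤ ((k + 2 : ℕ) : ℝ) ^ 2 * (R : ℝ) :=
        mul_le_mul_of_nonneg_right hqle hR0
      nlinarith [sq_nonneg ((k + 2 : ℕ) : ℝ)]
    exact hstep.trans hfin

end PoolQ4
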