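import Mathlib

/-!
# The uniform cluster lemma (statement), and admissible sets

`ClusterPlus K` is the uniform cluster lemma for `K + 1` clusters: its proof for `K = 4` from
Bombieri-Vinogradov is the sieve part of the project (folder MT).
-/

namespace PoolQ4

open Finset

/-- Uniform cluster lemma for `K + 1` clusters of `L` linear forms `a i z + b i`. -/
def ClusterPlus (K : ℕ) : Prop :=
  ∃ L D₁ : ℕ, 0 < L ∧ ∀ W A₀ C : ℕ, 0 < W → primorial D₁ ∣ W → ∃ X₀ : ℕ,
    ∀ (x v : ℕ) (a b : Fin (K + 1) × Fin L → ℕ), X₀ ≤ x →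
      (∀ i, 1 ≤ a i ∧ a i ≤ A₀) → (∀ i, ∀ p : ℕ, p.Prime → p ∣ a i → p ∣ W) →
      (∀ i, b i ≤ C * x) → (∀ i, (a i * v + b i).Coprime W) →
      (∀ i j, i ≠ j → a i * b j ≠ a j * b i) →
      ∃ z, x < z ∧ z ≤ 2 * x ∧ z ≡ v [MOD W] ∧
        ∃ i j, i.1 ≠ j.1 ∧ (a i * z + b i).Prime ∧ (a j * z + b j).Prime

/-- Admissible sets: they miss a residue class modulo every prime. -/
def Admissible (H : Finset ℕ) : Prop := ∀ p : ℕ, p.Prime → ∃ v : ℕ, ∀ h ∈ H, ¬ p ∣ v + h

/-- For an admissible set there is one `v` with all `v + h` prime to `primorial D`. -/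
theorem exists_coprime_shift {H : Finset ℕ} (hH : Admissible H) (D : ℕ) :
    ∃ v : ℕ, ∀ h ∈ H, (v + h).Coprime (primorial D) := by
  classical
  choose! f hf using hH
  obtain ⟨k, hk⟩ := Nat.chineseRemainderOfFinset f id
    ((Finset.range (D + 1)).filter (fun p => p.Prime))
    (by intro i hi; simp only [mem_filter, mem_range] at hi; exact hi.2.ne_zero)
    (by
      intro i hi j hj hij
      simp only [coe_filter, mem_range, Set.mem_ofPred_eq] at hi hj
      exact (Nat.coprime_primes hi.2 hj.2).2 hij)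
  refine ⟨k, fun h hh => ?_⟩
  unfold primorial
  refine Nat.Coprime.prod_right fun p hp => ?_
  have hpp : p.Prime := (mem_filter.1 hp).2
  refine Nat.Coprime.symm ((Nat.Prime.coprime_iff_not_dvd hpp).2 fun hd => ?_)
  have h1 : k ≡ f p [MOD p] := hk p hp
  have h2 : k + h ≡ f p + h [MOD p] := Nat.ModEq.add_right h h1
  exact hf p hpp h hh ((h2.dvd_iff dvd_rfl).1 hd)

end PoolQ4
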