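import Pool.Agent.Work.MP_70e905_nt.Q4.Defs

/-!
# Module HlOm : `hl (m n)` as a function of `m`

For `m, n ≥ 1`: `hl (m n) = C om n m` with `C = ∏_{2 < p ∣ n} (p-1)/(p-2) > 0` (the prime factors of `m n`
are the disjoint union of those of `n` and those of `m` not dividing `n`).
-/

namespace PoolQ4

open Finset

theorem hl_eq_om (n : ℕ) (hn : 1 ≤ n) :
    ∃ C : ℝ, 0 < C ∧ ∀ m : ℕ, 1 ≤ m → hl (m * n) = C * om n m := by
  refine ⟨∏ p ∈ n.primeFactors.filter (fun p => 2 < p), ((p : ℝ) - 1) / (p - 2), ?_, ?_⟩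
  · apply Finset.prod_pos
    intro p hp
    rw [mem_filter] at hp
    have h2 : (2 : ℝ) < p := by exact_mod_cast hp.2
    apply div_pos <;> linarith
  · intro m hm
    unfold hl om
    by_cases he : Even (m * n)
    · rw [if_pos ⟨he, by positivity⟩, if_pos he]
      rw [← Finset.prod_union]
      · apply Finset.prod_congr _ (fun _ _ => rfl)
        ext p
        simp only [mem_filter, mem_union]
        rw [Nat.primeFactors_mul (by omega) (by omega), mem_union]
        constructor
        · rintro ⟨h1 | h1, h2⟩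
          · by_cases h3 : p ∣ n
            · left; exact ⟨Nat.mem_primeFactors.2 ⟨(Nat.prime_of_mem_primeFactors h1), h3, by omega⟩, h2⟩
            · right; exact ⟨h1, h2, h3⟩
          · left; exact ⟨h1, h2⟩
        · rintro (⟨h1, h2⟩ | ⟨h1, h2, _⟩)
          · exact ⟨Or.inr h1, h2⟩
          · exact ⟨Or.inl h1, h2⟩
      · rw [Finset.disjoint_left]
        intro p h1 h2
        rw [mem_filter] at h1 h2
        exact h2.2.2 (Nat.dvd_of_mem_primeFactors h1.1)
    · rw [if_neg (fun h => he h.1), if_neg he, mul_zero]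

end PoolQ4
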