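import Pool.Agent.Work.MP_70e905_nt.Q4.Defs

/-!
# Module WtOm : product formula for `wt`

`wt D n m = ∏_{p ≤ D} (p - 1 - [p ∤ m n])` by the Chinese remainder theorem (`primorial D` is
squarefree; e.g. induction on `D` with the bijection of `range (a b)` and `range a × range b` for
coprime `a, b`, or `ZMod.chineseRemainder`). The factor at `2` is `1` if `m n` is even, `0` if `m n` is
odd and `D ≥ 2`. For even `m n`, divide by the factor for the primes not dividing `m`:
`p - 1` if `p ∣ n`, `p - 2` if `p ∤ n`, `p > 2`: `wt D n m = C ∏_{2 < p ≤ D, p ∣ m, p ∤ n} (p-1)/(p-2)` with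
`C = ∏_{p ≤ D, p ∣ n or p = 2} (p-1) ∏_{2 < p ≤ D, p ∤ n} (p-2) > 0`.
-/

namespace PoolQ4

open Finset

/-- number of `v` mod `N` with `v` and `v + c` units -/
private noncomputable def cu (c N : ℕ) : ℕ :=
  Nat.card {v : ZMod N // IsUnit v ∧ IsUnit (v + (c : ZMod N))}

private theorem cu_eq (c N : ℕ) (hN : 0 < N) :
    #{v ∈ range N | v.Coprime N ∧ (v + c).Coprime N} = cu c N := by
  have : NeZero N := ⟨hN.ne'⟩
  unfold cu
  rw [← Nat.card_eq_finsetCard]
  refine Nat.card_congr ⟨fun v => ⟨((v : ℕ) : ZMod N), ?_⟩, fun w => ⟨w.1.val, ?_⟩, ?_, ?_⟩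
  · have hv := (Finset.mem_filter.1 v.2).2
    refine ⟨(ZMod.isUnit_iff_coprime _ _).2 hv.1, ?_⟩
    have := (ZMod.isUnit_iff_coprime _ _).2 hv.2
    push_cast at this
    exact this
  · rw [Finset.mem_filter, Finset.mem_range]
    refine ⟨ZMod.val_lt _, ?_, ?_⟩
    · rw [← ZMod.isUnit_iff_coprime, ZMod.natCast_zmod_val]
      exact w.2.1
    · rw [← ZMod.isUnit_iff_coprime, Nat.cast_add, ZMod.natCast_zmod_val]
      exact w.2.2
  · intro v
    have hv := Finset.mem_range.1 (Finset.mem_filter.1 v.2).1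
    exact Subtype.ext (ZMod.val_cast_of_lt hv)
  · intro w
    exact Subtype.ext (ZMod.natCast_zmod_val _)

private theorem cu_mul (c a b : ℕ) (h : a.Coprime b) : cu c (a * b) = cu c a * cu c b := by
  unfold cu
  rw [← Nat.card_prod]
  let e := ZMod.chineseRemainder h
  have hc : ∀ k : ℕ, e (k : ZMod (a * b)) = ((k : ZMod a), (k : ZMod b)) := by
    intro k
    rw [map_natCast]
    rfl
  have hu : ∀ v : ZMod (a * b), IsUnit v ↔ IsUnit (e v).1 ∧ IsUnit (e v).2 := by
    intro v
    rw [← Prod.isUnit_iff]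
    exact (MulEquiv.isUnit_map e.toMulEquiv).symm
  have hP : ∀ v : ZMod (a * b), (IsUnit v ∧ IsUnit (v + (c : ZMod (a * b)))) ↔
      (IsUnit (e v).1 ∧ IsUnit ((e v).1 + (c : ZMod a))) ∧
      (IsUnit (e v).2 ∧ IsUnit ((e v).2 + (c : ZMod b))) := by
    intro v
    rw [hu, hu, map_add, hc]
    simp only [Prod.fst_add, Prod.snd_add]
    tauto
  refine Nat.card_congr ⟨fun v => (⟨(e v.1).1, ((hP v.1).1 v.2).1⟩, ⟨(e v.1).2, ((hP v.1).1 v.2).2⟩),
    fun w => ⟨e.symm (w.1.1, w.2.1), ?_⟩, ?_, ?_⟩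
  · rw [hP]
    simp only [RingEquiv.apply_symm_apply]
    exact ⟨w.1.2, w.2.2⟩
  · intro v
    apply Subtype.ext
    simp
  · intro w
    ext <;> simp

private theorem cu_one (c : ℕ) : cu c 1 = 1 := by
  unfold cu
  have : Subsingleton (ZMod 1) := inferInstance
  have : ∀ v : ZMod 1, IsUnit v := fun v => isUnit_of_subsingleton v
  rw [Nat.card_eq_one_iff_unique]
  refine ⟨⟨fun a b => Subtype.ext (Subsingleton.elim _ _)⟩, ⟨⟨0, this _, this _⟩⟩⟩

private theorem cu_prime (c p : ℕ) (hp : p.Prime) :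
    cu c p = p - (if p ∣ c then 1 else 2) := by
  have : Fact p.Prime := ⟨hp⟩
  unfold cu
  have h1 : ∀ v : ZMod p, (IsUnit v ∧ IsUnit (v + (c : ZMod p))) ↔
      v ∈ (Finset.univ.erase (0 : ZMod p)).erase (-(c : ZMod p)) := by
    intro v
    simp only [isUnit_iff_ne_zero, Finset.mem_erase, Finset.mem_univ, and_true, ne_eq,
      eq_neg_iff_add_eq_zero]
    tauto
  rw [Nat.card_congr (Equiv.subtypeEquivRight h1), Nat.card_eq_finsetCard]
  by_cases hd : p ∣ c
  · have hc : (c : ZMod p) = 0 := (ZMod.natCast_eq_zero_iff c p).2 hd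
    rw [hc, neg_zero, Finset.erase_idem, Finset.card_erase_of_mem (Finset.mem_univ _),
      Finset.card_univ, ZMod.card, if_pos hd]
  · have hc : (c : ZMod p) ≠ 0 := fun h => hd ((ZMod.natCast_eq_zero_iff c p).1 h)
    rw [Finset.card_erase_of_mem, Finset.card_erase_of_mem (Finset.mem_univ _),
      Finset.card_univ, ZMod.card, if_neg hd]
    · rfl
    · rw [Finset.mem_erase]
      exact ⟨neg_ne_zero.2 hc, Finset.mem_univ _⟩

private theorem cu_prod (c : ℕ) (s : Finset ℕ) (hs : ∀ p ∈ s, p.Prime) :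
    cu c (∏ p ∈ s, p) = ∏ p ∈ s, (p - (if p ∣ c then 1 else 2)) := by
  induction s using Finset.induction_on with
  | empty => simp [cu_one]
  | insert p s hps ih =>
    rw [Finset.prod_insert hps, Finset.prod_insert hps, cu_mul, cu_prime c p
      (hs p (Finset.mem_insert_self _ _)), ih (fun q hq => hs q (Finset.mem_insert_of_mem hq))]
    refine Nat.Coprime.prod_right fun q hq => ?_
    rw [Nat.coprime_primes (hs p (Finset.mem_insert_self _ _)) (hs q (Finset.mem_insert_of_mem hq))]
    rintro rfl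
    exact hps hq

private theorem wt_prod (D n m : ℕ) :
    (wt D n m : ℝ) = ∏ p ∈ range (D + 1) with p.Prime, ((p : ℝ) - (if p ∣ m * n then 1 else 2)) := by
  unfold wt
  rw [cu_eq (m * n) (primorial D) (primorial_pos D)]
  unfold primorial
  rw [cu_prod (m * n) _ (fun p hp => (Finset.mem_filter.1 hp).2), Nat.cast_prod]
  refine Finset.prod_congr rfl fun p hp => ?_
  have hp2 := (Finset.mem_filter.1 hp).2.two_le
  split
  · rw [Nat.cast_sub (by omega)]; simp
  · rw [Nat.cast_sub hp2]; simp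

theorem wt_eq_omD (D n : ℕ) (hD : 2 ≤ D) (hn : 1 ≤ n) :
    ∃ C : ℝ, 0 < C ∧ ∀ m : ℕ, 1 ≤ m → (wt D n m : ℝ) = C * omD D n m := by
  refine ⟨∏ p ∈ range (D + 1) with p.Prime,
    (if p = 2 then (1 : ℝ) else if p ∣ n then (p : ℝ) - 1 else (p : ℝ) - 2), ?_, ?_⟩
  · refine Finset.prod_pos fun p hp => ?_
    have hp2 := (Finset.mem_filter.1 hp).2.two_le
    split
    · norm_num
    · rename_i h
      have : 3 ≤ p := by omega
      have h3 : (3 : ℝ) ≤ p := by exact_mod_cast this
      split <;> linarith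
  · intro m hm
    rw [wt_prod]
    unfold omD
    by_cases he : Even (m * n)
    · rw [if_pos he]
      have hsub : m.primeFactors.filter (fun p => (2 < p ∧ ¬ p ∣ n) ∧ p ≤ D)
          = ((range (D + 1)).filter Nat.Prime).filter (fun p => p ∣ m ∧ 2 < p ∧ ¬ p ∣ n) := by
        ext p
        simp only [Finset.mem_filter, Nat.mem_primeFactors, Finset.mem_range]
        constructor
        · rintro ⟨⟨h1, h2, h3⟩, ⟨h4, h5⟩, h6⟩
          exact ⟨⟨by omega, h1⟩, h2, h4, h5⟩
        · rintro ⟨⟨h1, h2⟩, h3, h4, h5⟩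
          exact ⟨⟨h2, h3, by omega⟩, ⟨h4, h5⟩, by omega⟩
      rw [hsub, Finset.prod_filter (fun p => p ∣ m ∧ 2 < p ∧ ¬ p ∣ n), ← Finset.prod_mul_distrib]
      refine Finset.prod_congr rfl fun p hp => ?_
      have hpp := (Finset.mem_filter.1 hp).2
      have hp2 := hpp.two_le
      rcases eq_or_ne p 2 with rfl | hp3
      · have : 2 ∣ m * n := even_iff_two_dvd.1 he
        simp [this]
        norm_num
      · have h3 : 3 ≤ p := by omega
        have h3' : (3 : ℝ) ≤ p := by exact_mod_cast h3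
        have h0 : (p : ℝ) - 2 ≠ 0 := by linarith
        have h2p : 2 < p := by omega
        rw [if_neg hp3]
        by_cases hdn : p ∣ n
        · have : p ∣ m * n := dvd_mul_of_dvd_right hdn m
          simp [this, hdn]
        · by_cases hdm : p ∣ m
          · have : p ∣ m * n := dvd_mul_of_dvd_left hdm n
            simp only [this, hdn, hdm, h2p, if_true, if_false, not_false_eq_true, and_self]
            field_simp
          · have : ¬ p ∣ m * n := fun h => by
              rcases hpp.dvd_mul.1 h with h | h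
              · exact hdm h
              · exact hdn h
            simp [this, hdn, hdm]
    · rw [if_neg he, mul_zero]
      refine Finset.prod_eq_zero (i := 2) ?_ ?_
      · rw [Finset.mem_filter, Finset.mem_range]
        exact ⟨by omega, Nat.prime_two⟩
      · have : ¬ 2 ∣ m * n := fun h => he (even_iff_two_dvd.2 h)
        simp [this]

end PoolQ4
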