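import Pool.Agent.Work.MP_70e905_nt.Q4.Defs

/-!
# Module LocalW : counting classes mod `D#`

`localW`: the number of `v` mod `P = primorial D` with `v + i n`, `v + j n` prime to `P` depends only
on `|i - j|`: say `i ≤ j` (symmetry of the two conditions), substitute `v ↦ v + i n` mod `P` (a
bijection of `range P`; coprimality to `P` depends only on the class mod `P`).
`wt_le`: trivial. `sum_card_VV`: for each `i` the number of `v < P` with `v + i n` prime to `P` is
`φ(P)`.  `sum_offDiag_VV` : exchange the order of summation and use `localW`.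
-/

namespace PoolQ4

open Finset

/-- shift invariance of counting a periodic property -/
private lemma lw_shift (P a : ℕ) (hP : 0 < P) (Q : ℕ → Prop) [DecidablePred Q]
    (hQ : ∀ v, Q (v % P) ↔ Q v) :
    #{v ∈ range P | Q (v + a)} = #{v ∈ range P | Q v} := by
  have h1 : #{v ∈ range P | Q (v + a)} = #{v ∈ Ico a (a + P) | Q v} := by
    apply Finset.card_bij (fun v _ => v + a)
    · intro v hv
      rw [mem_filter, mem_range] at hv
      rw [mem_filter, mem_Ico]
      exact ⟨⟨by omega, by omega⟩, hv.2⟩
    · intro u _ v _ h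
      exact Nat.add_right_cancel h
    · intro v hv
      rw [mem_filter, mem_Ico] at hv
      refine ⟨v - a, ?_, by omega⟩
      rw [mem_filter, mem_range]
      have : v - a + a = v := by omega
      rw [this]
      exact ⟨by omega, hv.2⟩
  have hper : Function.Periodic Q P := by
    intro v
    have h2 := hQ (v + P)
    rw [Nat.add_mod_right] at h2
    exact propext (h2.symm.trans (hQ v))
  have h2 := Nat.filter_Ico_card_eq_of_periodic a P Q hper
  have h3 := Nat.filter_Ico_card_eq_of_periodic 0 P Q hper
  rw [zero_add, Nat.Ico_zero_eq_range] at h3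
  rw [h1, h2, h3]

private lemma lw_cop (P x v : ℕ) : (v % P + x).Coprime P ↔ (v + x).Coprime P := by
  rw [Nat.coprime_iff_gcd_eq_one, Nat.coprime_iff_gcd_eq_one]
  rw [Nat.gcd_comm, Nat.gcd_rec, Nat.gcd_comm (v + x), Nat.gcd_rec P (v + x)]
  rw [Nat.mod_add_mod]

private lemma lw_le (D n i k : ℕ) :
    #{v ∈ range (primorial D) | (v + i * n).Coprime (primorial D) ∧
      (v + (i + k) * n).Coprime (primorial D)} = wt D n k := by
  unfold wt
  rw [← lw_shift (primorial D) (i * n) (primorial_pos D)
    (fun v => v.Coprime (primorial D) ∧ (v + k * n).Coprime (primorial D))]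
  · congr 1
    apply Finset.filter_congr
    intro v _
    have : v + i * n + k * n = v + (i + k) * n := by ring
    rw [this]
  · intro v
    have h1 := lw_cop (primorial D) 0 v
    rw [add_zero, add_zero] at h1
    rw [h1, lw_cop (primorial D) (k * n) v]

theorem localW (D n i j : ℕ) :
    #{v ∈ range (primorial D) | (v + i * n).Coprime (primorial D) ∧
      (v + j * n).Coprime (primorial D)} = wt D n (Nat.dist i j) := by
  rcases le_total i j with h | h
  · obtain ⟨k, rfl⟩ := Nat.exists_eq_add_of_le h
    rw [lw_le]
    congr 1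
    unfold Nat.dist
    omega
  · obtain ⟨k, rfl⟩ := Nat.exists_eq_add_of_le h
    have h1 := lw_le D n j k
    have h2 : Nat.dist (j + k) j = k := by unfold Nat.dist; omega
    rw [h2, ← h1]
    congr 1
    apply Finset.filter_congr
    intro v _
    exact and_comm

private lemma lw_one (D n i : ℕ) :
    #{v ∈ range (primorial D) | (v + i * n).Coprime (primorial D)} =
      Nat.totient (primorial D) := by
  rw [lw_shift (primorial D) (i * n) (primorial_pos D) (fun v => v.Coprime (primorial D))]
  · rw [Nat.totient_eq_card_coprime]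
    congr 1
    apply Finset.filter_congr
    intro v _
    exact Nat.coprime_comm
  · intro v
    have h1 := lw_cop (primorial D) 0 v
    rw [add_zero, add_zero] at h1
    exact h1

theorem wt_le (D n m : ℕ) : wt D n m ≤ Nat.totient (primorial D) := by
  unfold wt
  rw [← lw_one D n 0]
  apply Finset.card_le_card
  intro v hv
  rw [mem_filter] at hv ⊢
  refine ⟨hv.1, ?_⟩
  rw [zero_mul, add_zero]
  exact hv.2.1

theorem sum_card_VV (D n M : ℕ) :
    ∑ v ∈ range (primorial D), #(VV D n M v) = M * Nat.totient (primorial D) := by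
  unfold VV
  have h1 : ∀ v ∈ range (primorial D), #{i ∈ Icc 1 M | (v + i * n).Coprime (primorial D)} =
      ∑ i ∈ Icc 1 M, if (v + i * n).Coprime (primorial D) then 1 else 0 := by
    intro v _
    rw [Finset.card_filter]
  rw [Finset.sum_congr rfl h1, Finset.sum_comm]
  have h2 : ∀ i ∈ Icc 1 M, (∑ v ∈ range (primorial D),
      if (v + i * n).Coprime (primorial D) then 1 else 0) = Nat.totient (primorial D) := by
    intro i _
    rw [← Finset.card_filter, lw_one]
  rw [Finset.sum_congr rfl h2, Finset.sum_const, Nat.card_Icc]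
  simp

theorem sum_offDiag_VV (D n M : ℕ) (Q : ℕ × ℕ → Prop) [DecidablePred Q] :
    ∑ v ∈ range (primorial D), #{p ∈ (VV D n M v).offDiag | Q p} =
      ∑ p ∈ (Icc 1 M).offDiag.filter Q, wt D n (Nat.dist p.1 p.2) := by
  have h1 : ∀ v ∈ range (primorial D), #{p ∈ (VV D n M v).offDiag | Q p} =
      ∑ p ∈ (Icc 1 M).offDiag.filter Q, if ((v + p.1 * n).Coprime (primorial D) ∧
        (v + p.2 * n).Coprime (primorial D)) then 1 else 0 := by
    intro v _
    rw [← Finset.card_filter]
    congr 1
    ext ⟨a, b⟩
    simp only [VV, mem_filter, mem_offDiag]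
    tauto
  rw [Finset.sum_congr rfl h1, Finset.sum_comm]
  apply Finset.sum_congr rfl
  intro p _
  rw [← Finset.card_filter, localW]

end PoolQ4
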