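import Mathlib

/-!
# MP_70e905_nt / Q4 : consequences of the uniform cluster lemma

Common definitions.

* `DiffPrimes B m` : `m = p - q` for primes `p, q` with `p ≤ B`.
* `hl m` : the Hardy-Littlewood singular series of `m` divided by twice the twin prime
  constant, i.e. `∏_{p ∣ m, p > 2} (p-1)/(p-2)` for even `m > 0`, and `0` otherwise.
* `rough D m` : `∑ 1/r` over the primes `r > D` dividing `m`.
* `wt D n m` : number of residue classes `v` mod `D#` with `v` and `v + m n` both prime to `D#`.
* `Clu K L D n M η P` : the (only) input of the averaging argument.  `K + 1` clusters of `L`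
  integers in `[1, M]`.
* `om n m`, `omD D n m` : `∏_{2 < p ∣ m, p ∤ n} (p-1)/(p-2)`  if `m n` is even (resp. the same
  product over `p ≤ D` only).
-/

namespace PoolQ4

open Finset

/-- `m` is a difference of two primes, the larger one being at most `B`. -/
def DiffPrimes (B m : ℕ) : Prop := ∃ p q : ℕ, p.Prime ∧ q.Prime ∧ p ≤ B ∧ p = q + m

/-- The Hardy-Littlewood singular series divided by twice the twin prime constant. -/
noncomputable def hl (m : ℕ) : ℝ :=
  if Even m ∧ m ≠ 0 then ∏ p ∈ m.primeFactors.filter (fun p => 2 < p), ((p : ℝ) - 1) / (p - 2)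
  else 0

/-- Sum of `1/r` over the primes `r > D` dividing `m`. -/
noncomputable def rough (D m : ℕ) : ℝ := ∑ r ∈ m.primeFactors.filter (fun r => D < r), (1 : ℝ) / r

/-- Number of classes `v` modulo `primorial D` with `v` and `v + m n` prime to it. -/
def wt (D n m : ℕ) : ℕ :=
  #{v ∈ range (primorial D) | v.Coprime (primorial D) ∧ (v + m * n).Coprime (primorial D)}

/-- The elements `i` of `[1, M]` with `v + i n` prime to `primorial D`. -/
def VV (D n M v : ℕ) : Finset ℕ := {i ∈ Icc 1 M | (v + i * n).Coprime (primorial D)}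

/-- The cluster property: among any `(K+1) L` integers of `[1, M]`, distributed into `K + 1`
clusters of size `L`, with all `v + h n` prime to `primorial D` and all differences free of
many small prime factors `> D`, two integers of different clusters have a distance in `P`. -/
def Clu (K L D n M : ℕ) (η : ℝ) (P : ℕ → Prop) : Prop :=
  ∀ (v : ℕ) (h : Fin (K + 1) × Fin L → ℕ), Function.Injective h →
    (∀ s, 1 ≤ h s ∧ h s ≤ M) → (∀ s, (v + h s * n).Coprime (primorial D)) →
    (∀ s t, s ≠ t → rough D (Nat.dist (h s) (h t)) ≤ η) →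
    ∃ s t, s.1 ≠ t.1 ∧ P (Nat.dist (h s) (h t))

/-- `∏_{2 < p ∣ m, p ∤ n} (p-1)/(p-2)` if `m n` is even, else `0`. -/
noncomputable def om (n m : ℕ) : ℝ :=
  if Even (m * n) then
    ∏ p ∈ m.primeFactors.filter (fun p => 2 < p ∧ ¬ p ∣ n), ((p : ℝ) - 1) / (p - 2)
  else 0

/-- The same as `om`, product over the primes `p ≤ D` only. -/
noncomputable def omD (D n m : ℕ) : ℝ :=
  if Even (m * n) then
    ∏ p ∈ m.primeFactors.filter (fun p => (2 < p ∧ ¬ p ∣ n) ∧ p ≤ D), ((p : ℝ) - 1) / (p - 2)
  else 0

end PoolQ4
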