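import Mathlib

/-!
# Module EdgeStone : the edge version of the Erdos-Stone theorem

Mathlib has the minimal degree version
`SimpleGraph.eventually_completeEquipartiteGraph_isContained_of_minDegree`.
Deduction (no induction needed): put `α := 1 - 1/K + ε/2` and for `S : Finset V` let `e(S)` be the
number of edges of `G` inside `S`, `f(S) := e(S) - α |S| (|S| + 1) / 2`. Choose `S` maximising `f`
(`Finset.exists_max_image` over `univ.powerset`). For `v ∈ S`, `f(S \ {v}) ≤ f(S)` says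
`deg_S(v) = e(S) - e(S \ {v}) ≥ α |S|`. And `f(S) ≥ f(univ) ≥ (ε/2) N(N-1)/2 - α N ≥ (ε/8) N^2` for
`N = |V|` large (`α ≤ 2` since otherwise the hypothesis is impossible, or bound `α ≤ 1 + ε`), while
`f(S) ≤ e(S) ≤ |S|^2 / 2`; hence `|S| ≥ (√ε / 2) N` tends to infinity with `N`, and the minimal
degree version applies to `G` induced on `S`, transported to `Fin |S|` (`SimpleGraph.induce`,
`Finset.equivFin`, `SimpleGraph.Iso`), since `G.induce S` is contained in `G`.
-/

namespace PoolQ4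

open Finset SimpleGraph

private noncomputable def es_w {V : Type} (G : SimpleGraph V) [DecidableRel G.Adj] (a b : V) : ℝ :=
  if G.Adj a b then 1 else 0

private noncomputable def es_p {V : Type} (G : SimpleGraph V) [DecidableRel G.Adj]
    (S : Finset V) : ℝ := ∑ a ∈ S, ∑ b ∈ S, es_w G a b

private lemma es_w_comm {V : Type} (G : SimpleGraph V) [DecidableRel G.Adj] (a b : V) :
    es_w G a b = es_w G b a := by
  simp only [es_w, G.adj_comm]

private lemma es_w_self {V : Type} (G : SimpleGraph V) [DecidableRel G.Adj] (a : V) :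
    es_w G a a = 0 := by
  simp [es_w]

private lemma es_w_le {V : Type} (G : SimpleGraph V) [DecidableRel G.Adj] (a b : V) :
    es_w G a b ≤ 1 := by
  unfold es_w; split_ifs <;> norm_num

private lemma es_erase {V : Type} [DecidableEq V] (G : SimpleGraph V) [DecidableRel G.Adj]
    (S : Finset V) (v : V) (hv : v ∈ S) :
    es_p G S = es_p G (S.erase v) + 2 * ∑ b ∈ S, es_w G v b := by
  unfold es_p
  rw [← Finset.add_sum_erase S (fun a => ∑ b ∈ S, es_w G a b) hv]
  have h1 : ∀ a ∈ S.erase v, ∑ b ∈ S, es_w G a b = es_w G v a + ∑ b ∈ S.erase v, es_w G a b := by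
    intro a _
    rw [← Finset.add_sum_erase S (fun b => es_w G a b) hv, es_w_comm G a v]
  rw [Finset.sum_congr rfl h1, Finset.sum_add_distrib]
  have h2 := Finset.add_sum_erase S (fun b => es_w G v b) hv
  simp only [es_w_self, zero_add] at h2
  rw [h2]
  ring

private lemma es_le {V : Type} (G : SimpleGraph V) [DecidableRel G.Adj] (S : Finset V) :
    es_p G S ≤ (#S : ℝ) ^ 2 := by
  unfold es_p
  calc ∑ a ∈ S, ∑ b ∈ S, es_w G a b ≤ ∑ a ∈ S, ∑ b ∈ S, (1 : ℝ) :=
        Finset.sum_le_sum fun a _ => Finset.sum_le_sum fun b _ => es_w_le G a b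
    _ = (#S : ℝ) ^ 2 := by simp [sq]

private lemma es_univ {V : Type} [Fintype V] [DecidableEq V] (G : SimpleGraph V)
    [DecidableRel G.Adj] : es_p G univ = 2 * (#G.edgeFinset : ℝ) := by
  have h := G.sum_degrees_eq_twice_card_edges
  have h2 : es_p G univ = ((∑ v, G.degree v : ℕ) : ℝ) := by
    unfold es_p
    push_cast
    refine Finset.sum_congr rfl fun v _ => ?_
    unfold es_w
    rw [Finset.sum_boole, ← SimpleGraph.card_neighborFinset_eq_degree,
      SimpleGraph.neighborFinset_eq_filter]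
  rw [h2, h]
  push_cast
  ring

theorem edgeStone (K L : ℕ) (hK : 1 ≤ K) {ε : ℝ} (hε : 0 < ε) :
    ∃ m₀ : ℕ, ∀ (V : Type) [Fintype V] [DecidableEq V] (G : SimpleGraph V) [DecidableRel G.Adj],
      m₀ ≤ Fintype.card V →
      (1 - 1 / (K : ℝ) + ε) * ((Fintype.card V : ℝ) * ((Fintype.card V : ℝ) - 1) / 2) ≤
        (#G.edgeFinset : ℝ) →
      (completeEquipartiteGraph (K + 1) L) ⊑ G := by
  obtain ⟨n₀, hn₀⟩ := Filter.eventually_atTop.1
    (eventually_completeEquipartiteGraph_isContained_of_minDegree (half_pos hε) K L)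
  obtain ⟨m₁, hm₁⟩ := exists_nat_gt ((2 + 3 * ε / 2) * 4 / ε)
  obtain ⟨m₂, hm₂⟩ := exists_nat_gt (2 * ((n₀ : ℝ) + 1) / Real.sqrt ε)
  refine ⟨max 1 (max m₁ m₂), fun V _ _ G _ hN hedge => ?_⟩
  classical
  set N := Fintype.card V with hNdef
  have hN1 : (1 : ℝ) ≤ N := by
    exact_mod_cast le_trans (le_max_left _ _) hN
  have hNm1 : (m₁ : ℝ) ≤ N := by
    exact_mod_cast le_trans (le_trans (le_max_left _ _) (le_max_right _ _)) hN
  have hNm2 : (m₂ : ℝ) ≤ N := by
    exact_mod_cast le_trans (le_trans (le_max_right _ _) (le_max_right _ _)) hN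
  set α : ℝ := 1 - 1 / (K : ℝ) + ε / 2 with hα
  have hK0 : (1 : ℝ) ≤ K := by exact_mod_cast hK
  have hKinv : 1 / (K : ℝ) ≤ 1 := by
    rw [div_le_one (by linarith)]; exact hK0
  have hKinv0 : 0 ≤ 1 / (K : ℝ) := by positivity
  have hα0 : 0 ≤ α := by rw [hα]; linarith
  obtain ⟨S, -, hSmax⟩ := Finset.exists_max_image (univ : Finset (Finset V))
    (fun S => es_p G S - α * ((#S : ℝ) * ((#S : ℝ) + 1))) ⟨∅, mem_univ _⟩
  have hdeg : ∀ v ∈ S, α * (#S : ℝ) ≤ ∑ b ∈ S, es_w G v b := by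
    intro v hv
    have h1 := hSmax (S.erase v) (mem_univ _)
    rw [es_erase G S v hv] at h1
    have h2 : ((#(S.erase v) : ℕ) : ℝ) = (#S : ℝ) - 1 := by
      have := Finset.card_erase_add_one hv
      have h3 : ((#(S.erase v) : ℕ) : ℝ) + 1 = (#S : ℝ) := by exact_mod_cast this
      linarith
    rw [h2] at h1
    nlinarith [h1]
  have hbig : ε / 4 * (N : ℝ) ^ 2 ≤ (#S : ℝ) ^ 2 := by
    have h1 := hSmax univ (mem_univ _)
    rw [es_univ G, Finset.card_univ, ← hNdef] at h1
    have h2 := es_le G S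
    have h3 : 0 ≤ α * ((#S : ℝ) * ((#S : ℝ) + 1)) := by positivity
    have h4 : (2 + 3 * ε / 2) * 4 / ε < N := lt_of_lt_of_le hm₁ hNm1
    have h5 : (2 + 3 * ε / 2) * 4 < ε * N := by
      rw [div_lt_iff₀ hε] at h4
      linarith [h4]
    have h6 : (2 + 3 * ε / 2) * 4 * N ≤ ε * N * N := by
      apply mul_le_mul_of_nonneg_right h5.le (by linarith)
    have h7 : (1 - 1 / (K : ℝ) + ε) * ((N : ℝ) * ((N : ℝ) - 1)) ≤ 2 * (#G.edgeFinset : ℝ) := by
      linarith [hedge]
    have h8 : (1 - 1 / (K : ℝ) + ε) * ((N : ℝ) * ((N : ℝ) - 1)) - α * ((N : ℝ) * ((N : ℝ) + 1)) =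
        ε / 2 * N ^ 2 - N * (2 * (1 - 1 / (K : ℝ)) + 3 * ε / 2) := by
      rw [hα]; ring
    have h9 : N * (2 * (1 - 1 / (K : ℝ)) + 3 * ε / 2) ≤ N * (2 + 3 * ε / 2) := by
      apply mul_le_mul_of_nonneg_left _ (by linarith)
      linarith
    nlinarith [h1, h2, h3, h6, h7, h8, h9]
  have hsqrt : 0 < Real.sqrt ε := Real.sqrt_pos.2 hε
  have hS : Real.sqrt ε / 2 * N ≤ (#S : ℝ) := by
    apply le_of_sq_le_sq _ (by positivity)
    calc (Real.sqrt ε / 2 * N) ^ 2 = (Real.sqrt ε) ^ 2 / 4 * N ^ 2 := by ring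
      _ = ε / 4 * N ^ 2 := by rw [Real.sq_sqrt hε.le]
      _ ≤ _ := hbig
  have hSn : (n₀ : ℝ) + 1 ≤ (#S : ℝ) := by
    have h1 : 2 * ((n₀ : ℝ) + 1) / Real.sqrt ε < N := lt_of_lt_of_le hm₂ hNm2
    rw [div_lt_iff₀ hsqrt] at h1
    nlinarith
  have hSn' : n₀ + 1 ≤ #S := by exact_mod_cast hSn
  -- transport
  let e : Fin (#S) ≃ S := S.equivFin.symm
  let f : Fin (#S) ↪ V := e.toEmbedding.trans (Function.Embedding.subtype _)
  let G' : SimpleGraph (Fin (#S)) := G.comap f
  have hcont : (completeEquipartiteGraph (K + 1) L) ⊑ G' := by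
    apply hn₀ (#S) (by omega)
    have : Nonempty (Fin (#S)) := ⟨⟨0, by omega⟩⟩
    obtain ⟨i, hi⟩ := G'.exists_minimal_degree_vertex
    rw [hi]
    have h1 := hdeg (f i) (e i).2
    have h2 : ∑ b ∈ S, es_w G (f i) b = (G'.degree i : ℝ) := by
      unfold es_w
      rw [Finset.sum_boole, ← SimpleGraph.card_neighborFinset_eq_degree,
        SimpleGraph.neighborFinset_eq_filter]
      congr 1
      symm
      apply Finset.card_bij (fun j _ => f j)
      · intro j hj
        simp only [mem_filter, mem_univ, true_and] at hj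
        rw [mem_filter]
        exact ⟨(e j).2, hj⟩
      · intro a _ b _ hab
        exact f.injective hab
      · intro b hb
        rw [mem_filter] at hb
        refine ⟨e.symm ⟨b, hb.1⟩, ?_, ?_⟩
        · simp only [mem_filter, mem_univ, true_and]
          show G.Adj (f i) (f (e.symm ⟨b, hb.1⟩))
          have : f (e.symm ⟨b, hb.1⟩) = b := by
            show ((e (e.symm ⟨b, hb.1⟩) : S) : V) = b
            rw [Equiv.apply_symm_apply]
          rw [this]; exact hb.2
        · show ((e (e.symm ⟨b, hb.1⟩) : S) : V) = b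
          rw [Equiv.apply_symm_apply]
    rw [← h2]
    exact h1
  exact hcont.trans ⟨(SimpleGraph.Embedding.comap f G).toCopy⟩

end PoolQ4
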