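import Pool.Agent.Work.MP_70e905_nt.Q4.Clus
import Pool.Agent.Work.MP_70e905_nt.MT.Main
import Pool.Agent.Work.BV.PIV

/-!
# The uniform cluster lemma for five clusters

`ClusterPlus 4` from the sieve theorem `MT.GT` and the Bombieri-Vinogradov theorem.
-/

namespace PoolQ4

theorem clusterPlus_four : ClusterPlus 4 := by
  obtain ⟨m, D₀, hm, h⟩ := Pool.Agent.Work.MP_70e905_nt.MT.GT (fun t ht => BV.ld_all t ht) BV.pnt_all
  refine ⟨m, D₀, hm, fun W A₀ C hW hDW => ?_⟩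
  obtain ⟨X₀, hX⟩ := h W A₀ C hW hDW
  exact ⟨X₀, fun x v a b hx ha haW hb hcop hdif => hX x v a b hx ha haW hb hcop hdif⟩

end PoolQ4
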