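import Pool.Agent.Work.MP_70e905_nt.Q4.Defs

/-!
# Module OmTrunc : truncation of the singular series, on average

Let `g p = 1/(p-2)` for primes `p > 2`, `G m = ∏_{2 < p ∣ m} (1 + g p)`, `G_D m` the same over `p ≤ D`.
`omD D n m ≤ om n m`, both are `≥ 1` for even `m`, and `om n m - omD D n m ≤ G m - G_D m`
(`x y - x ≤ x' y' - x'` for `1 ≤ x ≤ x'`, `1 ≤ y ≤ y'`).
`∑_{m ≤ M} (G m - G_D m) ≤ M (∏_{2<p≤M} (1 + g p/p) - ∏_{2<p≤D} (1 + g p/p))` if `D ≤ M`: expand
`∏ (1 + g p)` over the subsets `S` of the prime factors (`Finset.prod_one_add`), exchange the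
summation: a set `S` of odd primes is contained in the prime factors of at most `M / ∏ S` of the
`m ≤ M`, and the difference only contains sets `S` with an element `> D`. The products:
`∏_{2<p≤D} (1 + 1/(p(p-2))) ≤ exp (∑_{k ≥ 3} 1/(k(k-2))) ≤ exp 1`, and
`∏_{D<p≤M} (1 + 1/(p(p-2))) - 1 ≤ exp (1/(D-1)) - 1 ≤ 2/(D-1)`. So for `D ≥ 2`
`∑_{m ≤ M} (M - m)(om - omD) ≤ M ∑ (G - G_D) ≤ C M^2 / D`, while
`∑_{m ≤ M} (M - m) omD ≥ ∑_{m ≤ M even} (M - m) ≥ M^2/8` for `M ≥ 4`.
-/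

namespace PoolQ4

open Finset

private noncomputable def gg (p : ℕ) : ℝ := 1 / ((p : ℝ) - 2)

private def PP (M : ℕ) : Finset ℕ := (range (M + 1)).filter fun p => p.Prime ∧ 2 < p

private theorem PP_three {M p : ℕ} (hp : p ∈ PP M) : (3 : ℝ) ≤ p := by
  have := (Finset.mem_filter.1 hp).2.2
  have h : 3 ≤ p := this
  exact_mod_cast h

private theorem gg_nonneg {M p : ℕ} (hp : p ∈ PP M) : 0 ≤ gg p := by
  have := PP_three hp
  unfold gg
  have : (0 : ℝ) < (p : ℝ) - 2 := by linarith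
  positivity

private theorem om_prod (n m M : ℕ) (hm : 1 ≤ m) (hM : m ≤ M) (he : Even (m * n)) :
    om n m = ∏ p ∈ PP M, (1 + if p ∣ m ∧ ¬ p ∣ n then gg p else 0) := by
  unfold om
  rw [if_pos he]
  have hsub : m.primeFactors.filter (fun p => 2 < p ∧ ¬ p ∣ n)
      = (PP M).filter fun p => p ∣ m ∧ ¬ p ∣ n := by
    ext p
    simp only [PP, Finset.mem_filter, Nat.mem_primeFactors, Finset.mem_range]
    constructor
    · rintro ⟨⟨h1, h2, h3⟩, h4, h5⟩
      have := Nat.le_of_dvd (by omega) h2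
      exact ⟨⟨by omega, h1, h4⟩, h2, h5⟩
    · rintro ⟨⟨h1, h2, h3⟩, h4, h5⟩
      exact ⟨⟨h2, h4, by omega⟩, h3, h5⟩
  rw [hsub, Finset.prod_filter]
  refine Finset.prod_congr rfl fun p hp => ?_
  split
  · have := PP_three hp
    have h0 : (p : ℝ) - 2 ≠ 0 := by linarith
    unfold gg
    field_simp
    ring
  · ring

private theorem omD_prod (D n m M : ℕ) (hm : 1 ≤ m) (hM : m ≤ M) (he : Even (m * n)) :
    omD D n m = ∏ p ∈ (PP M).filter (fun p => p ≤ D),
      (1 + if p ∣ m ∧ ¬ p ∣ n then gg p else 0) := by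
  unfold omD
  rw [if_pos he]
  have hsub : m.primeFactors.filter (fun p => (2 < p ∧ ¬ p ∣ n) ∧ p ≤ D)
      = ((PP M).filter (fun p => p ≤ D)).filter fun p => p ∣ m ∧ ¬ p ∣ n := by
    ext p
    simp only [PP, Finset.mem_filter, Nat.mem_primeFactors, Finset.mem_range]
    constructor
    · rintro ⟨⟨h1, h2, h3⟩, ⟨h4, h5⟩, h6⟩
      have := Nat.le_of_dvd (by omega) h2
      exact ⟨⟨⟨by omega, h1, h4⟩, h6⟩, h2, h5⟩
    · rintro ⟨⟨⟨h1, h2, h3⟩, h6⟩, h4, h5⟩
      exact ⟨⟨h2, h4, by omega⟩, ⟨h3, h5⟩, h6⟩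
  rw [hsub, Finset.prod_filter]
  refine Finset.prod_congr rfl fun p hp => ?_
  split
  · have := PP_three (Finset.mem_filter.1 hp).1
    have h0 : (p : ℝ) - 2 ≠ 0 := by linarith
    unfold gg
    field_simp
    ring
  · ring

private theorem one_le_prod {s : Finset ℕ} {f : ℕ → ℝ} (h : ∀ p ∈ s, 0 ≤ f p) :
    1 ≤ ∏ p ∈ s, (1 + f p) := by
  calc (1 : ℝ) = ∏ p ∈ s, (1 : ℝ) := by simp
    _ ≤ _ := Finset.prod_le_prod (fun _ _ => zero_le_one) fun p hp => by linarith [h p hp]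

/-- difference of full and truncated products -/
private noncomputable def dG (D M m : ℕ) : ℝ :=
  (∏ p ∈ PP M, (1 + if p ∣ m then gg p else 0))
    - ∏ p ∈ (PP M).filter (fun p => p ≤ D), (1 + if p ∣ m then gg p else 0)

private theorem dG_nonneg (D M m : ℕ) : 0 ≤ dG D M m := by
  have h0 : ∀ p ∈ PP M, 0 ≤ (if p ∣ m then gg p else 0) := by
    intro p hp
    split
    · exact gg_nonneg hp
    · exact le_refl _
  unfold dG
  rw [← Finset.prod_filter_mul_prod_filter_not (PP M) (fun p => p ≤ D)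
    (fun p => (1 + if p ∣ m then gg p else 0))]
  have h1 := one_le_prod (s := (PP M).filter fun p => p ≤ D)
    (f := fun p => if p ∣ m then gg p else 0) (fun p hp => h0 p (Finset.mem_filter.1 hp).1)
  have h2 := one_le_prod (s := (PP M).filter fun p => ¬ p ≤ D)
    (f := fun p => if p ∣ m then gg p else 0) (fun p hp => h0 p (Finset.mem_filter.1 hp).1)
  nlinarith

private theorem om_sub_le (D n m M : ℕ) (hm : 1 ≤ m) (hM : m ≤ M) :
    om n m - omD D n m ≤ dG D M m := by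
  by_cases he : Even (m * n)
  · rw [om_prod n m M hm hM he, omD_prod D n m M hm hM he]
    unfold dG
    rw [← Finset.prod_filter_mul_prod_filter_not (PP M) (fun p => p ≤ D)
      (fun p => (1 + if p ∣ m then gg p else 0)),
      ← Finset.prod_filter_mul_prod_filter_not (PP M) (fun p => p ≤ D)
      (fun p => (1 + if p ∣ m ∧ ¬ p ∣ n then gg p else 0))]
    have h0 : ∀ p ∈ PP M, 0 ≤ (if p ∣ m ∧ ¬ p ∣ n then gg p else 0) := by
      intro p hp
      split
      · exact gg_nonneg hp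
      · exact le_refl _
    have hle : ∀ p ∈ PP M, (if p ∣ m ∧ ¬ p ∣ n then gg p else 0) ≤ (if p ∣ m then gg p else 0) := by
      intro p hp
      have := gg_nonneg hp
      split_ifs with h1 h2
      · exact le_refl _
      · exact absurd h1.1 h2
      · exact this
      · exact le_refl _
    have x1 := one_le_prod (s := (PP M).filter fun p => p ≤ D)
      (f := fun p => if p ∣ m ∧ ¬ p ∣ n then gg p else 0)
      (fun p hp => h0 p (Finset.mem_filter.1 hp).1)
    have y1 := one_le_prod (s := (PP M).filter fun p => ¬ p ≤ D)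
      (f := fun p => if p ∣ m ∧ ¬ p ∣ n then gg p else 0)
      (fun p hp => h0 p (Finset.mem_filter.1 hp).1)
    have x2 : ∏ p ∈ (PP M).filter (fun p => p ≤ D), (1 + if p ∣ m ∧ ¬ p ∣ n then gg p else 0)
        ≤ ∏ p ∈ (PP M).filter (fun p => p ≤ D), (1 + if p ∣ m then gg p else 0) :=
      Finset.prod_le_prod (fun p hp => by linarith [h0 p (Finset.mem_filter.1 hp).1])
        fun p hp => by linarith [hle p (Finset.mem_filter.1 hp).1]
    have y2 : ∏ p ∈ (PP M).filter (fun p => ¬ p ≤ D), (1 + if p ∣ m ∧ ¬ p ∣ n then gg p else 0)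
        ≤ ∏ p ∈ (PP M).filter (fun p => ¬ p ≤ D), (1 + if p ∣ m then gg p else 0) :=
      Finset.prod_le_prod (fun p hp => by linarith [h0 p (Finset.mem_filter.1 hp).1])
        fun p hp => by linarith [hle p (Finset.mem_filter.1 hp).1]
    generalize ∏ p ∈ (PP M).filter (fun p => p ≤ D), (1 + if p ∣ m ∧ ¬ p ∣ n then gg p else 0) = x
      at *
    generalize ∏ p ∈ (PP M).filter (fun p => ¬ p ≤ D), (1 + if p ∣ m ∧ ¬ p ∣ n then gg p else 0) = y
      at *
    generalize ∏ p ∈ (PP M).filter (fun p => p ≤ D), (1 + if p ∣ m then gg p else 0) = x' at *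
    generalize ∏ p ∈ (PP M).filter (fun p => ¬ p ≤ D), (1 + if p ∣ m then gg p else 0) = y' at *
    nlinarith [mul_le_mul x2 (sub_le_sub_right y2 1) (by linarith) (by linarith)]
  · have h1 : om n m = 0 := by unfold om; rw [if_neg he]
    have h2 : omD D n m = 0 := by unfold omD; rw [if_neg he]
    rw [h1, h2, sub_zero]
    exact dG_nonneg D M m

private theorem set_count (M : ℕ) (S : Finset ℕ) (hS : ∀ p ∈ S, p.Prime) :
    (∑ m ∈ Icc 1 M, ∏ p ∈ S, (if p ∣ m then gg p else 0))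
      = (#{m ∈ Icc 1 M | ∏ p ∈ S, p ∣ m} : ℝ) * ∏ p ∈ S, gg p := by
  rw [Finset.card_filter, Nat.cast_sum, Finset.sum_mul]
  refine Finset.sum_congr rfl fun m hm => ?_
  by_cases h : ∏ p ∈ S, p ∣ m
  · rw [if_pos h, Nat.cast_one, one_mul]
    refine Finset.prod_congr rfl fun p hp => ?_
    rw [if_pos ((Finset.dvd_prod_of_mem _ hp).trans h)]
  · rw [if_neg h, Nat.cast_zero, zero_mul]
    by_contra hne
    apply h
    refine Finset.prod_primes_dvd m (fun p hp => (hS p hp).prime) fun p hp => ?_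
    exact by_contra fun hd => hne (Finset.prod_eq_zero hp (if_neg hd))

private theorem count_le (M d : ℕ) (hd : 0 < d) :
    (#{m ∈ Icc 1 M | d ∣ m} : ℝ) ≤ (M : ℝ) / d := by
  have h : #{m ∈ Icc 1 M | d ∣ m} = M / d := Nat.Ioc_filter_dvd_card_eq_div M d
  rw [h]
  exact Nat.cast_div_le

private theorem sum_dG (D M : ℕ) :
    ∑ m ∈ Icc 1 M, dG D M m ≤ M * ((∏ p ∈ PP M, (1 + gg p / p))
      - ∏ p ∈ (PP M).filter (fun p => p ≤ D), (1 + gg p / p)) := by
  have hsub : ((PP M).filter fun p => p ≤ D).powerset ⊆ (PP M).powerset :=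
    Finset.powerset_mono.2 (Finset.filter_subset _ _)
  have hexp : ∀ f : ℕ → ℝ, (∏ p ∈ PP M, (1 + f p))
      - ∏ p ∈ (PP M).filter (fun p => p ≤ D), (1 + f p)
      = ∑ S ∈ (PP M).powerset \ ((PP M).filter fun p => p ≤ D).powerset, ∏ p ∈ S, f p := by
    intro f
    rw [Finset.prod_one_add, Finset.prod_one_add, ← Finset.sum_sdiff hsub]
    ring
  unfold dG
  simp only [hexp]
  rw [Finset.sum_comm, Finset.mul_sum]
  refine Finset.sum_le_sum fun S hS => ?_
  have hSP : S ⊆ PP M := Finset.mem_powerset.1 (Finset.mem_sdiff.1 hS).1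
  have hpr : ∀ p ∈ S, p.Prime := fun p hp => (Finset.mem_filter.1 (hSP hp)).2.1
  rw [set_count M S hpr, Finset.prod_div_distrib]
  have h1 : 0 < ∏ p ∈ S, p := Finset.prod_pos fun p hp => (hpr p hp).pos
  have h2 := count_le M _ h1
  have h3 : 0 ≤ ∏ p ∈ S, gg p := Finset.prod_nonneg fun p hp => gg_nonneg (hSP hp)
  calc (#{m ∈ Icc 1 M | ∏ p ∈ S, p ∣ m} : ℝ) * ∏ p ∈ S, gg p
      ≤ ((M : ℝ) / ((∏ p ∈ S, p : ℕ) : ℝ)) * ∏ p ∈ S, gg p := mul_le_mul_of_nonneg_right h2 h3
    _ = _ := by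
      rw [Nat.cast_prod]
      ring

private theorem tel (a b : ℕ) (ha : 2 ≤ a) :
    ∑ k ∈ Ioc a b, (1 : ℝ) / (k * ((k : ℝ) - 2)) ≤ 2 / a := by
  have key : ∀ b, a ≤ b → ∑ k ∈ Ioc a b, (1 : ℝ) / (k * ((k : ℝ) - 2))
      = (1 / ((a : ℝ) - 1) + 1 / (a : ℝ)) / 2 - (1 / ((b : ℝ) - 1) + 1 / (b : ℝ)) / 2 := by
    intro b hb
    induction b, hb using Nat.le_induction with
    | base => rw [Finset.Ioc_self, Finset.sum_empty, sub_self]
    | succ b hb ih =>
      rw [← Finset.insert_Ioc_right_eq_Ioc_add_one hb, Finset.sum_insert (by simp), ih]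
      have h2 : (2 : ℝ) ≤ b := by exact_mod_cast ha.trans hb
      have h3 : (b : ℝ) - 1 ≠ 0 := by linarith
      have h4 : (b : ℝ) ≠ 0 := by linarith
      have h5 : (b : ℝ) + 1 ≠ 0 := by linarith
      have h6 : (a : ℝ) - 1 ≠ 0 := by
        have : (2 : ℝ) ≤ a := by exact_mod_cast ha
        linarith
      have h7 : (a : ℝ) ≠ 0 := by
        have : (2 : ℝ) ≤ a := by exact_mod_cast ha
        linarith
      push_cast
      rw [show (b : ℝ) + 1 - 2 = b - 1 by ring, show (b : ℝ) + 1 - 1 = b by ring]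
      field_simp
      ring
  have h2 : (2 : ℝ) ≤ a := by exact_mod_cast ha
  rcases le_total a b with hb | hb
  · rw [key b hb]
    have h3 : (2 : ℝ) ≤ b := by exact_mod_cast ha.trans hb
    have h4 : 0 ≤ (1 / ((b : ℝ) - 1) + 1 / (b : ℝ)) / 2 := by
      have : 0 < (b : ℝ) - 1 := by linarith
      positivity
    have h5 : 1 / ((a : ℝ) - 1) ≤ 2 / a := by
      rw [div_le_div_iff₀ (by linarith) (by linarith)]
      linarith
    have h6 : (2 : ℝ) / a = 2 * (1 / a) := by ring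
    have h7 : 0 ≤ 1 / (a : ℝ) := by positivity
    linarith
  · rw [Finset.Ioc_eq_empty (by omega), Finset.sum_empty]
    positivity

private theorem prod_le_exp (s : Finset ℕ) (a M : ℕ) (ha : 2 ≤ a) (hs : s ⊆ PP M)
    (hs' : ∀ p ∈ s, a < p) : ∏ p ∈ s, (1 + gg p / p) ≤ Real.exp (2 / a) := by
  have h1 : ∏ p ∈ s, (1 + gg p / p) ≤ ∏ p ∈ s, Real.exp (gg p / p) := by
    refine Finset.prod_le_prod (fun p hp => ?_) fun p hp => ?_
    · have := gg_nonneg (hs hp)
      have h3 := PP_three (hs hp)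
      positivity
    · rw [add_comm]
      exact Real.add_one_le_exp _
  rw [← Real.exp_sum] at h1
  refine h1.trans (Real.exp_le_exp.2 ?_)
  refine le_trans ?_ (tel a M ha)
  have hsub : s ⊆ Ioc a M := fun p hp => by
    rw [Finset.mem_Ioc]
    refine ⟨hs' p hp, ?_⟩
    have := Finset.mem_range.1 (Finset.mem_filter.1 (hs hp)).1
    omega
  refine le_trans (le_of_eq ?_) (Finset.sum_le_sum_of_subset_of_nonneg hsub fun k hk _ => ?_)
  · refine Finset.sum_congr rfl fun p hp => ?_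
    unfold gg
    rw [div_div, mul_comm]
  · have h2 : (2 : ℝ) < k := by
      exact_mod_cast lt_of_le_of_lt ha (Finset.mem_Ioc.1 hk).1
    have h3 : 0 < (k : ℝ) - 2 := by linarith
    positivity

private theorem sum_dG_le (D M : ℕ) (hD : 2 ≤ D) :
    ∑ m ∈ Icc 1 M, dG D M m ≤ 12 * M / D := by
  refine (sum_dG D M).trans ?_
  rw [← Finset.prod_filter_mul_prod_filter_not (PP M) (fun p => p ≤ D) (fun p => (1 + gg p / p))]
  have hA := prod_le_exp ((PP M).filter fun p => p ≤ D) 2 M (le_refl _) (Finset.filter_subset _ _)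
    (fun p hp => (Finset.mem_filter.1 (Finset.mem_filter.1 hp).1).2.2)
  have hB := prod_le_exp ((PP M).filter fun p => ¬ p ≤ D) D M hD (Finset.filter_subset _ _)
    (fun p hp => not_le.1 (Finset.mem_filter.1 hp).2)
  have hA1 := one_le_prod (s := (PP M).filter fun p => p ≤ D) (f := fun p => gg p / p)
    (fun p hp => div_nonneg (gg_nonneg (Finset.mem_filter.1 hp).1) (Nat.cast_nonneg _))
  have hB1 := one_le_prod (s := (PP M).filter fun p => ¬ p ≤ D) (f := fun p => gg p / p)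
    (fun p hp => div_nonneg (gg_nonneg (Finset.mem_filter.1 hp).1) (Nat.cast_nonneg _))
  generalize ∏ p ∈ (PP M).filter (fun p => p ≤ D), (1 + gg p / p) = A at *
  generalize ∏ p ∈ (PP M).filter (fun p => ¬ p ≤ D), (1 + gg p / p) = B at *
  have hD' : (2 : ℝ) ≤ D := by exact_mod_cast hD
  have hx : |(2 : ℝ) / D| ≤ 1 := by
    rw [abs_of_nonneg (by positivity), div_le_one (by linarith)]
    exact hD'
  have h1 := Real.abs_exp_sub_one_le hx
  rw [abs_of_nonneg (by positivity : (0 : ℝ) ≤ 2 / D)] at h1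
  have h2 : B - 1 ≤ 2 * (2 / D) := by
    have := (abs_le.1 h1).2
    linarith
  have h3 : A ≤ 3 := by
    refine hA.trans ?_
    have : ((2 : ℕ) : ℝ) = 2 := by norm_num
    rw [this, div_self (by norm_num)]
    exact (Real.exp_one_lt_d9.trans (by norm_num)).le
  have h4 : A * B - A ≤ 3 * (2 * (2 / D)) := by
    have : A * B - A = A * (B - 1) := by ring
    rw [this]
    exact mul_le_mul h3 h2 (by linarith) (by norm_num)
  calc (M : ℝ) * (A * B - A) ≤ M * (3 * (2 * (2 / D))) :=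
        mul_le_mul_of_nonneg_left h4 (Nat.cast_nonneg _)
    _ = 12 * M / D := by ring

theorem omD_nonneg (D n m : ℕ) : 0 ≤ omD D n m := by
  unfold omD
  split
  · refine Finset.prod_nonneg fun p hp => ?_
    have h : 3 ≤ p := (Finset.mem_filter.1 hp).2.1.1
    have h' : (3 : ℝ) ≤ p := by exact_mod_cast h
    exact div_nonneg (by linarith) (by linarith)
  · exact le_refl _

theorem omD_le_om (D n m : ℕ) : omD D n m ≤ om n m := by
  unfold omD om
  split
  · refine Finset.prod_le_prod_of_subset_of_one_le ?_ ?_ ?_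
    · intro p hp
      rw [Finset.mem_filter] at hp ⊢
      exact ⟨hp.1, hp.2.1⟩
    · intro p hp
      have h : 3 ≤ p := (Finset.mem_filter.1 hp).2.1.1
      have h' : (3 : ℝ) ≤ p := by exact_mod_cast h
      exact div_nonneg (by linarith) (by linarith)
    · intro p hp _
      have h : 3 ≤ p := (Finset.mem_filter.1 hp).2.1
      have h' : (3 : ℝ) ≤ p := by exact_mod_cast h
      rw [le_div_iff₀ (by linarith)]
      linarith
  · exact le_refl _

private theorem one_le_omD (D n m : ℕ) (hm : Even m) : 1 ≤ omD D n m := by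
  unfold omD
  rw [if_pos (hm.mul_right n)]
  calc (1 : ℝ) = ∏ p ∈ m.primeFactors.filter (fun p => (2 < p ∧ ¬ p ∣ n) ∧ p ≤ D), (1 : ℝ) := by
        simp
    _ ≤ _ := by
      refine Finset.prod_le_prod (fun _ _ => zero_le_one) fun p hp => ?_
      have h : 3 ≤ p := (Finset.mem_filter.1 hp).2.1.1
      have h' : (3 : ℝ) ≤ p := by exact_mod_cast h
      rw [le_div_iff₀ (by linarith)]
      linarith

private theorem sum_gauss (M : ℝ) (k : ℕ) :
    ∑ j ∈ Icc 1 k, (M - ((2 * j : ℕ) : ℝ)) = k * M - k * (k + 1) := by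
  induction k with
  | zero => simp
  | succ k ih =>
    rw [Finset.sum_Icc_succ_top (by omega), ih]
    push_cast
    ring

private theorem lower (D n M : ℕ) (hM : 4 ≤ M) :
    (M : ℝ) ^ 2 / 8 ≤ ∑ m ∈ Icc 1 M, ((M : ℝ) - m) * omD D n m := by
  have hinj : Set.InjOn (fun j : ℕ => 2 * j) (Icc 1 (M / 2) : Finset ℕ) := fun a _ b _ h => by
    simp only at h
    omega
  have hsub : (Icc 1 (M / 2)).image (fun j : ℕ => 2 * j) ⊆ Icc 1 M := by
    intro m hm
    obtain ⟨j, hj, rfl⟩ := Finset.mem_image.1 hm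
    rw [Finset.mem_Icc] at hj ⊢
    omega
  have h1 : ∑ m ∈ (Icc 1 (M / 2)).image (fun j : ℕ => 2 * j), ((M : ℝ) - m) * omD D n m
      ≤ ∑ m ∈ Icc 1 M, ((M : ℝ) - m) * omD D n m := by
    refine Finset.sum_le_sum_of_subset_of_nonneg hsub fun m hm _ => ?_
    have : (m : ℝ) ≤ M := by exact_mod_cast (Finset.mem_Icc.1 hm).2
    exact mul_nonneg (by linarith) (omD_nonneg D n m)
  refine le_trans ?_ h1
  rw [Finset.sum_image hinj]
  have h2 : ∑ j ∈ Icc 1 (M / 2), ((M : ℝ) - ((2 * j : ℕ) : ℝ))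
      ≤ ∑ j ∈ Icc 1 (M / 2), ((M : ℝ) - ((2 * j : ℕ) : ℝ)) * omD D n (2 * j) := by
    refine Finset.sum_le_sum fun j hj => ?_
    have h3 : 2 * j ≤ M := by
      have := (Finset.mem_Icc.1 hj).2
      omega
    have h4 : ((2 * j : ℕ) : ℝ) ≤ M := by exact_mod_cast h3
    have h5 := one_le_omD D n (2 * j) (even_two_mul j)
    nlinarith
  refine le_trans ?_ h2
  rw [sum_gauss]
  obtain ⟨k, hk | hk⟩ : ∃ k, M = 2 * k ∨ M = 2 * k + 1 := ⟨M / 2, by omega⟩
  · have h6 : M / 2 = k := by omega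
    have h7 : (2 : ℝ) ≤ k := by
      have : 2 ≤ k := by omega
      exact_mod_cast this
    rw [h6, hk]
    push_cast
    nlinarith
  · have h6 : M / 2 = k := by omega
    have h7 : (2 : ℝ) ≤ k := by
      have : 2 ≤ k := by omega
      exact_mod_cast this
    rw [h6, hk]
    push_cast
    nlinarith

theorem omTrunc : ∃ C : ℝ, 0 < C ∧ ∀ D n M : ℕ, 2 ≤ D → 4 ≤ M →
    ∑ m ∈ Icc 1 M, ((M : ℝ) - m) * om n m ≤
      (1 + C / D) * ∑ m ∈ Icc 1 M, ((M : ℝ) - m) * omD D n m := by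
  refine ⟨96, by norm_num, fun D n M hD hM => ?_⟩
  have hD' : (2 : ℝ) ≤ D := by exact_mod_cast hD
  have h1 := sum_dG_le D M hD
  have h2 := lower D n M hM
  have h3 : ∑ m ∈ Icc 1 M, ((M : ℝ) - m) * om n m
      ≤ ∑ m ∈ Icc 1 M, ((M : ℝ) - m) * omD D n m + M * ∑ m ∈ Icc 1 M, dG D M m := by
    rw [Finset.mul_sum, ← Finset.sum_add_distrib]
    refine Finset.sum_le_sum fun m hm => ?_
    obtain ⟨h4, h5⟩ := Finset.mem_Icc.1 hm
    have h6 := om_sub_le D n m M h4 h5
    have h7 := dG_nonneg D M m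
    have h8 : (m : ℝ) ≤ M := by exact_mod_cast h5
    have h9 : (0 : ℝ) ≤ m := Nat.cast_nonneg _
    have h10 : ((M : ℝ) - m) * (om n m - omD D n m) ≤ M * dG D M m :=
      (mul_le_mul_of_nonneg_left h6 (by linarith)).trans
        (mul_le_mul_of_nonneg_right (by linarith) h7)
    linarith
  have h4 : (M : ℝ) * ∑ m ∈ Icc 1 M, dG D M m ≤ 96 / D * (M ^ 2 / 8) := by
    calc (M : ℝ) * ∑ m ∈ Icc 1 M, dG D M m ≤ M * (12 * M / D) :=
          mul_le_mul_of_nonneg_left h1 (Nat.cast_nonneg _)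
      _ = 96 / D * (M ^ 2 / 8) := by ring
  have h5 : 96 / (D : ℝ) * (M ^ 2 / 8)
      ≤ 96 / D * ∑ m ∈ Icc 1 M, ((M : ℝ) - m) * omD D n m :=
    mul_le_mul_of_nonneg_left h2 (by positivity)
  linarith

end PoolQ4
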