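import Mathlib

/-!
# Module PairSum : sums over pairs as sums over differences

`(i, j) ↦ |i - j|` maps the ordered pairs of different elements of `[1, M]` onto `[1, M-1]`, and every
`m ≤ M` has `2 (M - m)` preimages (`(i, i+m)`, `(i+m, i)`, `1 ≤ i ≤ M - m`). E.g. induction on `M`:
going from `M` to `M+1` adds the pairs `(i, M+1)`, `(M+1, i)`, `i ≤ M`, i.e. `2 ∑_{m ∈ Icc 1 M} f m`.
-/

namespace PoolQ4

open Finset

theorem pairSum (M : ℕ) (f : ℕ → ℝ) :
    ∑ p ∈ (Icc 1 M).offDiag, f (Nat.dist p.1 p.2) = 2 * ∑ m ∈ Icc 1 M, ((M : ℝ) - m) * f m := by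
  induction M with
  | zero => simp
  | succ M ih =>
    have hins : Icc 1 (M + 1) = insert (M + 1) (Icc 1 M) := by
      ext x; simp only [mem_Icc, mem_insert]; omega
    have hnot : (M + 1) ∉ Icc 1 M := by simp
    have hrefl : ∑ i ∈ Icc 1 M, f (Nat.dist (M + 1) i) = ∑ m ∈ Icc 1 M, f m := by
      apply Finset.sum_bij' (fun i _ => M + 1 - i) (fun i _ => M + 1 - i)
      · intro i hi; rw [mem_Icc] at hi ⊢; omega
      · intro i hi; rw [mem_Icc] at hi ⊢; omega
      · intro i hi; rw [mem_Icc] at hi; omega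
      · intro i hi; rw [mem_Icc] at hi; omega
      · intro i hi
        rw [mem_Icc] at hi
        congr 1
        unfold Nat.dist
        omega
    have hoff : ∀ g : ℕ × ℕ → ℝ, ∑ p ∈ (Icc 1 (M + 1)).offDiag, g p =
        ∑ p ∈ (Icc 1 M).offDiag, g p + (∑ i ∈ Icc 1 M, g (M + 1, i) + ∑ i ∈ Icc 1 M, g (i, M + 1)) := by
      intro g
      rw [hins, Finset.offDiag_insert hnot, Finset.sum_union, Finset.sum_union]
      · rw [Finset.sum_product, Finset.sum_product]
        simp only [sum_singleton]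
        ring
      · rw [Finset.disjoint_left]
        rintro ⟨a, b⟩ h1 h2
        simp only [mem_offDiag, mem_Icc, mem_product, mem_singleton] at h1 h2
        omega
      · rw [Finset.disjoint_left]
        rintro ⟨a, b⟩ h1 h2
        simp only [mem_union, mem_offDiag, mem_Icc, mem_product, mem_singleton] at h1 h2
        omega
    rw [hoff, ih]
    have h3 : ∑ i ∈ Icc 1 M, f (Nat.dist (i, M + 1).1 (i, M + 1).2) = ∑ m ∈ Icc 1 M, f m := by
      rw [← hrefl]
      apply Finset.sum_congr rfl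
      intro i _
      simp only [Nat.dist_comm]
    have h4 : ∑ i ∈ Icc 1 M, f (Nat.dist (M + 1, i).1 (M + 1, i).2) = ∑ m ∈ Icc 1 M, f m := hrefl
    rw [h3, h4, hins, Finset.sum_insert hnot]
    have h5 : ∑ m ∈ Icc 1 M, (((M + 1 : ℕ) : ℝ) - m) * f m =
        ∑ m ∈ Icc 1 M, ((M : ℝ) - m) * f m + ∑ m ∈ Icc 1 M, f m := by
      rw [← Finset.sum_add_distrib]
      apply Finset.sum_congr rfl
      intro m _
      push_cast
      ring
    rw [h5]
    push_cast
    ring

theorem pairSum_filter (M : ℕ) (f : ℕ → ℝ) (P : ℕ → Prop) [DecidablePred P] :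
    ∑ p ∈ (Icc 1 M).offDiag.filter (fun p => P (Nat.dist p.1 p.2)), f (Nat.dist p.1 p.2) =
      2 * ∑ m ∈ (Icc 1 M).filter P, ((M : ℝ) - m) * f m := by
  rw [Finset.sum_filter, Finset.sum_filter]
  have h := pairSum M (fun m => if P m then f m else 0)
  rw [h]
  congr 1
  apply Finset.sum_congr rfl
  intro m _
  split_ifs <;> simp

end PoolQ4
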