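import Pool.Agent.Work.MP_70e905_nt.Q4.WtMain
import Pool.Agent.Work.MP_70e905_nt.Q4.PairSum
import Pool.Agent.Work.MP_70e905_nt.Q4.HlOm
import Pool.Agent.Work.MP_70e905_nt.Q4.WtOm
import Pool.Agent.Work.MP_70e905_nt.Q4.OmTrunc

/-!
# Module Quarter : the abstract density theorem with the full singular series

From `wtMain` with `ε/3` (divide by the constants of `wt_eq_omD`, use `pairSum`, `pairSum_filter`),
`omTrunc` for `D ≥ 3 C/ε`, `omD_le_om`, `hl_eq_om`: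
`∑_{P} (M-m) om ≥ ∑_{P} (M-m) omD ≥ (1/K - ε/3) ∑ (M-m) omD ≥ (1/K - ε/3)/(1 + ε/3) ∑ (M-m) om`.
If `1/K - ε < 0` the statement is trivial (all terms nonnegative).
-/

namespace PoolQ4

open Finset

theorem quarter (K L : ℕ) (hK : 1 ≤ K) (η : ℝ) (hη : 0 < η) (ε : ℝ) (hε : 0 < ε) :
    ∃ D₂ : ℕ, ∀ D : ℕ, D₂ ≤ D → ∃ M₀ : ℕ, ∀ n M : ℕ, 1 ≤ n → M₀ ≤ M →
      ∀ (P : ℕ → Prop) [DecidablePred P], Clu K L D n M η P →
      (1 / (K : ℝ) - ε) * ∑ m ∈ Icc 1 M, ((M : ℝ) - m) * hl (m * n) ≤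
        ∑ m ∈ (Icc 1 M).filter P, ((M : ℝ) - m) * hl (m * n) := by
  obtain ⟨D₀, hD₀⟩ := wtMain K L hK η hη (ε / 3) (by positivity)
  obtain ⟨C, hC, htr⟩ := omTrunc
  refine ⟨max D₀ (max 2 ⌈3 * C / ε⌉₊), fun D hD => ?_⟩
  have hD1 : D₀ ≤ D := (le_max_left _ _).trans hD
  have hD2 : 2 ≤ D := ((le_max_left _ _).trans (le_max_right _ _)).trans hD
  have hD3 : 3 * C / ε ≤ D := (Nat.le_ceil _).trans (by
    exact_mod_cast ((le_max_right _ _).trans (le_max_right _ _)).trans hD)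
  have hDpos : (0 : ℝ) < D := by
    have : 0 < D := by omega
    exact_mod_cast this
  obtain ⟨M₀, hM₀⟩ := hD₀ D hD1
  refine ⟨max M₀ 4, fun n M hn hM P _ hclu => ?_⟩
  have hM1 : M₀ ≤ M := (le_max_left _ _).trans hM
  have hM2 : 4 ≤ M := (le_max_right _ _).trans hM
  have hmain := hM₀ n M hM1 P hclu
  obtain ⟨C₁, hC₁, hhl⟩ := hl_eq_om n hn
  obtain ⟨C₂, hC₂, hwt⟩ := wt_eq_omD D n hD2 hn
  have htr' := htr D n M hD2 hM2
  set S : ℝ := ∑ m ∈ Icc 1 M, ((M : ℝ) - m) * om n m with hS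
  set SD : ℝ := ∑ m ∈ Icc 1 M, ((M : ℝ) - m) * omD D n m with hSD
  set SP : ℝ := ∑ m ∈ (Icc 1 M).filter P, ((M : ℝ) - m) * om n m with hSP
  set SDP : ℝ := ∑ m ∈ (Icc 1 M).filter P, ((M : ℝ) - m) * omD D n m with hSDP
  have e1 : ∑ m ∈ Icc 1 M, ((M : ℝ) - m) * hl (m * n) = C₁ * S := by
    rw [hS, mul_sum]
    refine sum_congr rfl fun m hm => ?_
    rw [mem_Icc] at hm
    rw [hhl m hm.1]
    ring
  have e2 : ∑ m ∈ (Icc 1 M).filter P, ((M : ℝ) - m) * hl (m * n) = C₁ * SP := by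
    rw [hSP, mul_sum]
    refine sum_congr rfl fun m hm => ?_
    rw [mem_filter, mem_Icc] at hm
    rw [hhl m hm.1.1]
    ring
  have e3 : ∑ p ∈ (Icc 1 M).offDiag, (wt D n (Nat.dist p.1 p.2) : ℝ) = 2 * (C₂ * SD) := by
    rw [pairSum M (fun m => (wt D n m : ℝ))]
    congr 1
    rw [hSD, mul_sum]
    refine sum_congr rfl fun m hm => ?_
    rw [mem_Icc] at hm
    rw [hwt m hm.1]
    ring
  have e4 : ∑ p ∈ (Icc 1 M).offDiag.filter (fun p => P (Nat.dist p.1 p.2)),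
      (wt D n (Nat.dist p.1 p.2) : ℝ) = 2 * (C₂ * SDP) := by
    rw [pairSum_filter M (fun m => (wt D n m : ℝ)) P]
    congr 1
    rw [hSDP, mul_sum]
    refine sum_congr rfl fun m hm => ?_
    rw [mem_filter, mem_Icc] at hm
    rw [hwt m hm.1.1]
    ring
  rw [e3, e4] at hmain
  have h1 : (1 / (K : ℝ) - ε / 3) * SD ≤ SDP := by
    have h2 : 0 < 2 * C₂ := by positivity
    refine le_of_mul_le_mul_left ?_ h2
    calc 2 * C₂ * ((1 / (K : ℝ) - ε / 3) * SD) = (1 / (K : ℝ) - ε / 3) * (2 * (C₂ * SD)) := by ring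
      _ ≤ 2 * (C₂ * SDP) := hmain
      _ = 2 * C₂ * SDP := by ring
  have hnn : ∀ m ∈ Icc 1 M, (0 : ℝ) ≤ (M : ℝ) - m := by
    intro m hm
    rw [mem_Icc] at hm
    have : (m : ℝ) ≤ M := by exact_mod_cast hm.2
    linarith
  have h2 : SDP ≤ SP := by
    refine sum_le_sum fun m hm => ?_
    rw [mem_filter] at hm
    exact mul_le_mul_of_nonneg_left (omD_le_om D n m) (hnn m hm.1)
  have h3 : 0 ≤ SD := sum_nonneg fun m hm => mul_nonneg (hnn m hm) (omD_nonneg D n m)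
  have h4 : 0 ≤ SDP := sum_nonneg fun m hm =>
    mul_nonneg (hnn m (mem_filter.1 hm).1) (omD_nonneg D n m)
  have h5 : 0 ≤ S := sum_nonneg fun m hm =>
    mul_nonneg (hnn m hm) ((omD_nonneg D n m).trans (omD_le_om D n m))
  have h6 : S ≤ (1 + ε / 3) * SD := by
    refine htr'.trans (mul_le_mul_of_nonneg_right ?_ h3)
    have : C / D ≤ ε / 3 := by
      rw [div_le_iff₀ hDpos]
      rw [div_le_iff₀ hε] at hD3
      nlinarith
    linarith
  rw [e1, e2]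
  have hK1 : 1 / (K : ℝ) ≤ 1 := by
    have : (1 : ℝ) ≤ K := by exact_mod_cast hK
    rw [div_le_one (by linarith)]
    exact this
  suffices h : (1 / (K : ℝ) - ε) * S ≤ SP by
    calc (1 / (K : ℝ) - ε) * (C₁ * S) = C₁ * ((1 / (K : ℝ) - ε) * S) := by ring
      _ ≤ C₁ * SP := mul_le_mul_of_nonneg_left h hC₁.le
  rcases le_or_gt (1 / (K : ℝ) - ε) 0 with h7 | h7
  · exact (mul_nonpos_of_nonpos_of_nonneg h7 h5).trans (h4.trans h2)
  · calc (1 / (K : ℝ) - ε) * S ≤ (1 / (K : ℝ) - ε) * ((1 + ε / 3) * SD) :=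
          mul_le_mul_of_nonneg_left h6 h7.le
      _ = ((1 / (K : ℝ) - ε) * (1 + ε / 3)) * SD := by ring
      _ ≤ (1 / (K : ℝ) - ε / 3) * SD := by
          refine mul_le_mul_of_nonneg_right ?_ h3
          nlinarith
      _ ≤ SDP := h1
      _ ≤ SP := h2

end PoolQ4
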