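import Pool.Agent.Work.MP_70e905_nt.Q4.Clus
import Pool.Agent.Work.MP_70e905_nt.Q4.Quarter

/-!
# Module Multiples : the theorem on the multiples `m n`

`Clu K L D n M η P` (any `η`) with `P m := DiffPrimes (3 M n) (m n)` follows from `ClusterPlus K` with
`W = primorial D`, `D ≥ D₁`, `A₀ = C = 1`, `x = M n`, `a = 1`, `b i = h i * n`, if `M ≥ X₀`.
-/

namespace PoolQ4

open Finset Classical

private theorem multiples_primorial_pos (D : ℕ) : 0 < primorial D := by
  unfold primorial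
  exact Finset.prod_pos fun p hp => (mem_filter.1 hp).2.pos

private theorem multiples_primorial_dvd {D₁ D : ℕ} (h : D₁ ≤ D) : primorial D₁ ∣ primorial D := by
  unfold primorial
  refine Finset.prod_dvd_prod_of_subset _ _ _ ?_
  intro p hp
  simp only [mem_filter, mem_range] at hp ⊢
  exact ⟨by omega, hp.2⟩

theorem multiples (K : ℕ) (hK : 1 ≤ K) (HC : ClusterPlus K) (ε : ℝ) (hε : 0 < ε) :
    ∃ M₀ : ℕ, ∀ n M : ℕ, 1 ≤ n → M₀ ≤ M →
      (1 / (K : ℝ) - ε) * ∑ m ∈ Icc 1 M, ((M : ℝ) - m) * hl (m * n) ≤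
        ∑ m ∈ (Icc 1 M).filter (fun m => DiffPrimes (3 * M * n) (m * n)),
          ((M : ℝ) - m) * hl (m * n) := by
  obtain ⟨L, D₁, hL, HC⟩ := HC
  obtain ⟨D₂, hQ⟩ := quarter K L hK 1 one_pos ε hε
  obtain ⟨X₀, hX⟩ := HC (primorial (max D₁ D₂)) 1 1 (multiples_primorial_pos _)
    (multiples_primorial_dvd (le_max_left _ _))
  obtain ⟨M₀, hM₀⟩ := hQ (max D₁ D₂) (le_max_right _ _)
  refine ⟨max M₀ X₀, fun n M hn hM => ?_⟩
  refine hM₀ n M hn (le_trans (le_max_left _ _) hM)
    (fun m => DiffPrimes (3 * M * n) (m * n)) ?_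
  intro v h hinj hh hcop _
  have hMX : X₀ ≤ M * n := by
    have h1 : X₀ ≤ M := le_trans (le_max_right _ _) hM
    nlinarith
  obtain ⟨z, hz1, hz2, -, s, t, hst, hs, ht⟩ := hX (M * n) v (fun _ => 1) (fun i => h i * n) hMX
    (fun _ => ⟨le_rfl, le_rfl⟩)
    (fun _ p hp hd => absurd (Nat.dvd_one.1 hd) hp.one_lt.ne')
    (fun i => by
      have := (hh i).2
      nlinarith)
    (fun i => by simpa using hcop i)
    (fun i j hij hEq => by
      have h1 : h j * n = h i * n := by simpa using hEq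
      exact hij (hinj (Nat.eq_of_mul_eq_mul_right (by omega) h1)).symm)
  refine ⟨s, t, hst, ?_⟩
  simp only [one_mul] at hs ht
  have hsM := Nat.mul_le_mul_right n (hh s).2
  have htM := Nat.mul_le_mul_right n (hh t).2
  show DiffPrimes (3 * M * n) (Nat.dist (h s) (h t) * n)
  rcases le_total (h s) (h t) with hle | hle
  · refine ⟨z + h t * n, z + h s * n, ht, hs, ?_, ?_⟩
    · calc z + h t * n ≤ 2 * (M * n) + M * n := by omega
        _ = 3 * M * n := by ring
    · rw [Nat.dist_eq_sub_of_le hle, Nat.sub_mul]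
      have := Nat.mul_le_mul_right n hle
      omega
  · refine ⟨z + h s * n, z + h t * n, hs, ht, ?_, ?_⟩
    · calc z + h s * n ≤ 2 * (M * n) + M * n := by omega
        _ = 3 * M * n := by ring
    · rw [Nat.dist_eq_sub_of_le_right hle, Nat.sub_mul]
      have := Nat.mul_le_mul_right n hle
      omega

end PoolQ4
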