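import Pool.Agent.Work.MP_70e905_nt.Q4.Defs

/-!
# Module RoughCount : few pairs have a difference with many small prime factors `> D`

Markov: `η #{rough pairs} ≤ ∑_{p ∈ offDiag} rough D (dist p.1 p.2)
  ≤ ∑_{r prime, D < r ≤ M} (1/r) #{(i,j) ∈ offDiag : r ∣ dist i j}`, and for each `i ∈ [1, M]` the
number of `j ∈ [1, M]`, `j ≠ i`, `j ≡ i mod r` is at most `(i-1)/r + (M-i)/r ≤ M / r`. So the sum is
`≤ M^2 ∑_{r > D} 1/r^2 ≤ M^2 / D` (telescoping `1/r^2 ≤ 1/(r-1) - 1/r`).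
-/

namespace PoolQ4

open Finset

private theorem RoughCount_one (M i r : ℕ) (hr : 0 < r) (hi : i ∈ Icc 1 M) :
    ((#{j ∈ Icc 1 M | i ≠ j ∧ r ∣ Nat.dist i j} : ℕ) : ℝ) ≤ M / r := by
  rw [mem_Icc] at hi
  have h1 : {j ∈ Icc 1 M | i ≠ j ∧ r ∣ Nat.dist i j} ⊆
      (Icc 1 ((i - 1) / r)).image (fun k => i - r * k) ∪
        (Icc 1 ((M - i) / r)).image (fun k => i + r * k) := by
    intro j hj
    rw [mem_filter, mem_Icc] at hj
    obtain ⟨⟨hj1, hj2⟩, hne, ⟨k, hk⟩⟩ := hj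
    rw [mem_union, mem_image, mem_image]
    rcases lt_or_gt_of_ne hne with hlt | hlt
    · right
      have h2 : Nat.dist i j = j - i := Nat.dist_eq_sub_of_le hlt.le
      rw [h2] at hk
      refine ⟨k, ?_, by omega⟩
      rw [mem_Icc]
      constructor
      · rcases Nat.eq_zero_or_pos k with h0 | h0
        · subst h0
          omega
        · exact h0
      · rw [Nat.le_div_iff_mul_le hr, mul_comm]
        omega
    · left
      have h2 : Nat.dist i j = i - j := Nat.dist_eq_sub_of_le_right hlt.le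
      rw [h2] at hk
      refine ⟨k, ?_, by omega⟩
      rw [mem_Icc]
      constructor
      · rcases Nat.eq_zero_or_pos k with h0 | h0
        · subst h0
          omega
        · exact h0
      · rw [Nat.le_div_iff_mul_le hr, mul_comm]
        omega
  have h2 : #{j ∈ Icc 1 M | i ≠ j ∧ r ∣ Nat.dist i j} ≤ (i - 1) / r + (M - i) / r := by
    refine (card_le_card h1).trans ((card_union_le _ _).trans ?_)
    refine add_le_add (card_image_le.trans ?_) (card_image_le.trans ?_)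
    · rw [Nat.card_Icc, Nat.add_sub_cancel]
    · rw [Nat.card_Icc, Nat.add_sub_cancel]
  have hr' : (0 : ℝ) < r := by exact_mod_cast hr
  calc ((#{j ∈ Icc 1 M | i ≠ j ∧ r ∣ Nat.dist i j} : ℕ) : ℝ)
      ≤ (((i - 1) / r + (M - i) / r : ℕ) : ℝ) := by exact_mod_cast h2
    _ = (((i - 1) / r : ℕ) : ℝ) + (((M - i) / r : ℕ) : ℝ) := by push_cast; rfl
    _ ≤ ((i - 1 : ℕ) : ℝ) / r + ((M - i : ℕ) : ℝ) / r := add_le_add Nat.cast_div_le Nat.cast_div_le
    _ = (((i - 1 : ℕ) : ℝ) + ((M - i : ℕ) : ℝ)) / r := by rw [add_div]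
    _ ≤ M / r := by
      apply div_le_div_of_nonneg_right _ hr'.le
      have : (i - 1) + (M - i) ≤ M := by omega
      exact_mod_cast this

theorem roughCount (D M : ℕ) (hD : 1 ≤ D) (η : ℝ) (hη : 0 < η) :
    η * D * (#{p ∈ (Icc 1 M).offDiag | η < rough D (Nat.dist p.1 p.2)} : ℝ) ≤ (M : ℝ) ^ 2 := by
  classical
  have hD' : (0 : ℝ) < D := by exact_mod_cast hD
  -- the sum of `rough`
  have h1 : η * (#{p ∈ (Icc 1 M).offDiag | η < rough D (Nat.dist p.1 p.2)} : ℝ) ≤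
      ∑ p ∈ (Icc 1 M).offDiag, rough D (Nat.dist p.1 p.2) := by
    have h2 : ∀ p : ℕ × ℕ, 0 ≤ rough D (Nat.dist p.1 p.2) := fun p =>
      sum_nonneg fun r _ => by positivity
    calc η * (#{p ∈ (Icc 1 M).offDiag | η < rough D (Nat.dist p.1 p.2)} : ℝ)
        = ∑ p ∈ (Icc 1 M).offDiag.filter (fun p => η < rough D (Nat.dist p.1 p.2)), η := by
          rw [sum_const, nsmul_eq_mul, mul_comm]
      _ ≤ ∑ p ∈ (Icc 1 M).offDiag.filter (fun p => η < rough D (Nat.dist p.1 p.2)),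
            rough D (Nat.dist p.1 p.2) := by
          refine sum_le_sum fun p hp => ?_
          rw [mem_filter] at hp
          exact hp.2.le
      _ ≤ _ := sum_le_sum_of_subset_of_nonneg (filter_subset _ _) fun p _ _ => h2 p
  -- rough is a sum over `r ∈ Ioc D M`
  have h2 : ∀ p ∈ (Icc 1 M).offDiag, rough D (Nat.dist p.1 p.2) ≤
      ∑ r ∈ Ioc D M, if r ∣ Nat.dist p.1 p.2 then (1 : ℝ) / r else 0 := by
    intro p hp
    rw [mem_offDiag, mem_Icc, mem_Icc] at hp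
    obtain ⟨⟨h3, h4⟩, ⟨h5, h6⟩, h7⟩ := hp
    have hd0 : Nat.dist p.1 p.2 ≠ 0 := by
      intro h0
      exact h7 (Nat.eq_of_dist_eq_zero h0)
    have hdM : Nat.dist p.1 p.2 ≤ M := by
      unfold Nat.dist
      omega
    rw [← sum_filter]
    unfold rough
    refine sum_le_sum_of_subset_of_nonneg ?_ fun r _ _ => by positivity
    intro r hr
    rw [mem_filter, Nat.mem_primeFactors] at hr
    rw [mem_filter, mem_Ioc]
    exact ⟨⟨hr.2, (Nat.le_of_dvd (Nat.pos_of_ne_zero hd0) hr.1.2.1).trans hdM⟩, hr.1.2.1⟩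
  have h3 : ∑ p ∈ (Icc 1 M).offDiag, rough D (Nat.dist p.1 p.2) ≤
      ∑ r ∈ Ioc D M, (1 : ℝ) / r * (M * (M / r)) := by
    refine (sum_le_sum h2).trans ?_
    rw [sum_comm]
    refine sum_le_sum fun r hr => ?_
    rw [mem_Ioc] at hr
    have hr0 : 0 < r := by omega
    have hr' : (0 : ℝ) < r := by exact_mod_cast hr0
    rw [← sum_filter, sum_const, nsmul_eq_mul, mul_comm]
    apply mul_le_mul_of_nonneg_left _ (by positivity)
    have h4 : #{p ∈ (Icc 1 M).offDiag | r ∣ Nat.dist p.1 p.2} =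
        ∑ i ∈ Icc 1 M, #{j ∈ Icc 1 M | i ≠ j ∧ r ∣ Nat.dist i j} := by
      rw [← card_sigma]
      refine card_bij (fun p _ => ⟨p.1, p.2⟩) ?_ ?_ ?_
      · intro p hp
        rw [mem_filter, mem_offDiag] at hp
        rw [mem_sigma, mem_filter]
        exact ⟨hp.1.1, hp.1.2.1, hp.1.2.2, hp.2⟩
      · intro p _ q _ hpq
        have h5 : p.1 = q.1 := congrArg Sigma.fst hpq
        have h6 : p.2 = q.2 := by
          rw [Sigma.mk.injEq] at hpq
          exact eq_of_heq hpq.2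
        exact Prod.ext h5 h6
      · intro q hq
        rw [mem_sigma, mem_filter] at hq
        refine ⟨(q.1, q.2), ?_, rfl⟩
        rw [mem_filter, mem_offDiag]
        exact ⟨⟨hq.1, hq.2.1, hq.2.2.1⟩, hq.2.2.2⟩
    rw [h4, Nat.cast_sum]
    calc ∑ i ∈ Icc 1 M, ((#{j ∈ Icc 1 M | i ≠ j ∧ r ∣ Nat.dist i j} : ℕ) : ℝ)
        ≤ ∑ i ∈ Icc 1 M, (M : ℝ) / r := sum_le_sum fun i hi => RoughCount_one M i r hr0 hi
      _ = M * (M / r) := by
        rw [sum_const, nsmul_eq_mul, Nat.card_Icc]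
        simp
  have h4 : ∑ r ∈ Ioc D M, (1 : ℝ) / r * (M * (M / r)) ≤ (M : ℝ) ^ 2 / D := by
    rcases le_or_gt D M with hDM | hDM
    · have h5 : ∑ r ∈ Ioc D M, (1 : ℝ) / r * (M * (M / r)) =
          (M : ℝ) ^ 2 * ∑ r ∈ Ioc D M, ((r : ℝ) ^ 2)⁻¹ := by
        rw [mul_sum]
        refine sum_congr rfl fun r hr => ?_
        rw [mem_Ioc] at hr
        have hr' : (r : ℝ) ≠ 0 := by
          have : 0 < r := by omega
          exact_mod_cast this.ne'
        field_simp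
      rw [h5]
      have h6 : ∑ r ∈ Ioc D M, ((r : ℝ) ^ 2)⁻¹ ≤ (D : ℝ)⁻¹ - (M : ℝ)⁻¹ :=
        sum_Ioc_inv_sq_le_sub (by omega) hDM
      have h7 : (0 : ℝ) ≤ (M : ℝ)⁻¹ := by positivity
      calc (M : ℝ) ^ 2 * ∑ r ∈ Ioc D M, ((r : ℝ) ^ 2)⁻¹ ≤ (M : ℝ) ^ 2 * (D : ℝ)⁻¹ :=
            mul_le_mul_of_nonneg_left (by linarith) (by positivity)
        _ = _ := by rw [div_eq_mul_inv]
    · rw [Ioc_eq_empty (by omega), sum_empty]
      positivity
  have h5 := h1.trans (h3.trans h4)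
  rw [le_div_iff₀ hD'] at h5
  calc _ = η * (#{p ∈ (Icc 1 M).offDiag | η < rough D (Nat.dist p.1 p.2)} : ℝ) * D := by ring
    _ ≤ _ := h5

end PoolQ4
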