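import Pool.Agent.Work.MP_70e905_nt.Q4.LocalW

/-!
# Module TotW : lower bound for the total weight

With `N v = #(VV D n M v)`: `∑ v, N v = M φ(P)` and `∑ v, N v (N v - 1) = ∑ over offDiag pairs of wt`
(`sum_offDiag_VV` with `Q = True`, `Finset.offDiag_card`). Cauchy-Schwarz:
`(∑ v, N v)^2 ≤ P ∑ v, (N v)^2` (`sq_sum_le_card_mul_sum_sq`).
-/

namespace PoolQ4

open Finset

theorem sum_offDiag_VV_card (D n M : ℕ) :
    ∑ v ∈ range (primorial D), ((#(VV D n M v) : ℝ) * ((#(VV D n M v) : ℝ) - 1)) =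
      ∑ p ∈ (Icc 1 M).offDiag, (wt D n (Nat.dist p.1 p.2) : ℝ) := by
  have h := sum_offDiag_VV D n M (fun _ => True)
  simp only [filter_true] at h
  have h2 : ((∑ v ∈ range (primorial D), #(VV D n M v).offDiag : ℕ) : ℝ) =
      ((∑ p ∈ (Icc 1 M).offDiag, wt D n (Nat.dist p.1 p.2) : ℕ) : ℝ) := by
    rw [h]
  rw [Nat.cast_sum, Nat.cast_sum] at h2
  rw [← h2]
  refine sum_congr rfl fun v _ => ?_
  rw [offDiag_card, Nat.cast_sub (Nat.le_mul_self _), Nat.cast_mul]
  ring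

theorem totW (D n M : ℕ) :
    (M : ℝ) ^ 2 * (Nat.totient (primorial D) : ℝ) ^ 2 / primorial D -
        M * Nat.totient (primorial D) ≤
      ∑ p ∈ (Icc 1 M).offDiag, (wt D n (Nat.dist p.1 p.2) : ℝ) := by
  rw [← sum_offDiag_VV_card]
  have hP : (0 : ℝ) < primorial D := by exact_mod_cast primorial_pos D
  have h1 : ∑ v ∈ range (primorial D), (#(VV D n M v) : ℝ) =
      M * Nat.totient (primorial D) := by
    have h := sum_card_VV D n M
    have h2 : ((∑ v ∈ range (primorial D), #(VV D n M v) : ℕ) : ℝ) =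
        ((M * Nat.totient (primorial D) : ℕ) : ℝ) := by rw [h]
    rw [Nat.cast_sum, Nat.cast_mul] at h2
    exact h2
  have h2 : (∑ v ∈ range (primorial D), (#(VV D n M v) : ℝ)) ^ 2 ≤
      (#(range (primorial D)) : ℝ) * ∑ v ∈ range (primorial D), (#(VV D n M v) : ℝ) ^ 2 :=
    sq_sum_le_card_mul_sum_sq
  rw [h1, card_range] at h2
  have h3 : ∑ v ∈ range (primorial D), ((#(VV D n M v) : ℝ) * ((#(VV D n M v) : ℝ) - 1)) =
      ∑ v ∈ range (primorial D), (#(VV D n M v) : ℝ) ^ 2 - M * Nat.totient (primorial D) := by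
    rw [← h1, ← sum_sub_distrib]
    refine sum_congr rfl fun v _ => ?_
    ring
  rw [h3]
  have h4 : (M : ℝ) ^ 2 * (Nat.totient (primorial D) : ℝ) ^ 2 / primorial D ≤
      ∑ v ∈ range (primorial D), (#(VV D n M v) : ℝ) ^ 2 := by
    rw [div_le_iff₀ hP]
    calc (M : ℝ) ^ 2 * (Nat.totient (primorial D) : ℝ) ^ 2
        = ((M : ℝ) * Nat.totient (primorial D)) ^ 2 := by ring
      _ ≤ _ := h2
      _ = _ := by ring
  linarith

end PoolQ4
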