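import Pool.Agent.Work.MP_70e905_nt.Q4.Defs
import Pool.Agent.Work.MP_70e905_nt.Q4.Clus
import Pool.Agent.Work.MP_70e905_nt.Q4.StonePairs
import Pool.Agent.Work.MP_70e905_nt.Q4.SubsetAvg

/-!
# Module Univ : a quarter of the differences of every admissible set in `[0, x]`

If `1/K - ε < 0` trivial. Let `m₀` be from `stonePairs K L hK ε`, apply `subsetAvg` with
`good a b := DiffPrimes (3x) (dist a b)`, `rough := False`: `H` holds by `stonePairs`, because for an
injective `h` into `A ⊆ H` the cluster lemma with `W = primorial D₁`, `A₀ = C = 1`, `a = 1`, `b = h`, `v`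
from `exists_coprime_shift` gives `z ≤ 2x` and `i, j` with `z + h i`, `z + h j` prime, both `≤ 3x`,
their difference being `dist (h i) (h j)`; here `X₀ ≤ x` because `#H ≤ x + 1`, if `k₀ ≥ X₀ + 2`.
So `#good ≥ (1/K - ε)(N(N-1) - m₀^2)`, `N = #H`; use `ε/2` and `N ≥ k₀` large to absorb `m₀^2`.
-/

namespace PoolQ4

open Finset Classical

private theorem univ_primorial_pos (D : ℕ) : 0 < primorial D := by
  unfold primorial
  exact Finset.prod_pos fun p hp => (mem_filter.1 hp).2.pos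

/-- The number estimate: `(c - ε) T ≤ (c - ε/2) (T - m^2)` if `m^2 c ≤ (ε/2) T`. -/
private theorem univ_num {c ε T m : ℝ} (hε : 0 < ε) (hm : m ^ 2 * c ≤ ε / 2 * T) :
    (c - ε) * T ≤ (c - ε / 2) * (T - m ^ 2) := by
  nlinarith [sq_nonneg m]

theorem univ_admissible (K : ℕ) (hK : 1 ≤ K) (HC : ClusterPlus K) (ε : ℝ) (hε : 0 < ε) :
    ∃ k₀ : ℕ, ∀ (x : ℕ) (H : Finset ℕ), (∀ h ∈ H, h ≤ x) → Admissible H → k₀ ≤ #H →
      (1 / (K : ℝ) - ε) * ((#H : ℝ) * ((#H : ℝ) - 1)) ≤
        (#{p ∈ H.offDiag | DiffPrimes (3 * x) (Nat.dist p.1 p.2)} : ℝ) := by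
  obtain ⟨L, D₁, hL, HC⟩ := HC
  obtain ⟨m₀, hm₀, hS⟩ := stonePairs K L hK (half_pos hε)
  obtain ⟨X₀, hX⟩ := HC (primorial D₁) 1 1 (univ_primorial_pos _) dvd_rfl
  obtain ⟨k₁, hk₁⟩ := exists_nat_ge (2 * (m₀ : ℝ) ^ 2 / ε)
  refine ⟨max (X₀ + 2) (k₁ + 2), fun x H hx hH hk => ?_⟩
  have hN1 : X₀ + 2 ≤ #H := le_trans (le_max_left _ _) hk
  have hN2 : k₁ + 2 ≤ #H := le_trans (le_max_right _ _) hk
  have hcard : #H ≤ x + 1 := by
    have h1 : H ⊆ Finset.range (x + 1) := fun h hh => by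
      have := hx h hh
      simp only [mem_range]; omega
    simpa using Finset.card_le_card h1
  have hXx : X₀ ≤ x := by omega
  have hNr : (k₁ : ℝ) + 2 ≤ (#H : ℝ) := by exact_mod_cast hN2
  have hk0 : (0 : ℝ) ≤ (k₁ : ℝ) := Nat.cast_nonneg _
  have hT0 : 0 ≤ (#H : ℝ) * ((#H : ℝ) - 1) := by nlinarith
  have hT1 : (k₁ : ℝ) ≤ (#H : ℝ) * ((#H : ℝ) - 1) := by nlinarith
  rcases lt_or_ge (1 / (K : ℝ) - ε / 2) 0 with hneg | hpos
  · have h1 : (1 / (K : ℝ) - ε) * ((#H : ℝ) * ((#H : ℝ) - 1)) ≤ 0 :=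
      mul_nonpos_of_nonpos_of_nonneg (by linarith) hT0
    exact h1.trans (Nat.cast_nonneg _)
  · have key := subsetAvg H m₀ hm₀ (fun a b => DiffPrimes (3 * x) (Nat.dist a b))
      (fun _ _ => False) (1 / (K : ℝ) - ε / 2) hpos (fun A hA hAc _ => by
        refine hS A (fun a b => DiffPrimes (3 * x) (Nat.dist a b)) (fun a b hab => ?_) hAc ?_
        · rw [Nat.dist_comm]; exact hab
        · intro h hinj hhA
          obtain ⟨v, hv⟩ := exists_coprime_shift hH D₁
          obtain ⟨z, hz1, hz2, -, s, t, hst, hs, ht⟩ := hX x v (fun _ => 1) (fun i => h i) hXx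
            (fun _ => ⟨le_rfl, le_rfl⟩)
            (fun _ p hp hd => absurd (Nat.dvd_one.1 hd) hp.one_lt.ne')
            (fun i => by simpa using hx _ (hA (hhA i)))
            (fun i => by simpa using hv _ (hA (hhA i)))
            (fun i j hij hEq => by
              have h1 : h j = h i := by simpa using hEq
              exact hij (hinj h1).symm)
          refine ⟨s, t, hst, ?_⟩
          simp only [one_mul] at hs ht
          have hsM := hx _ (hA (hhA s))
          have htM := hx _ (hA (hhA t))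
          show DiffPrimes (3 * x) (Nat.dist (h s) (h t))
          rcases le_total (h s) (h t) with hle | hle
          · refine ⟨z + h t, z + h s, ht, hs, by omega, ?_⟩
            rw [Nat.dist_eq_sub_of_le hle]
            omega
          · refine ⟨z + h s, z + h t, hs, ht, by omega, ?_⟩
            rw [Nat.dist_eq_sub_of_le_right hle]
            omega)
    have hr : #{p ∈ H.offDiag | (fun _ _ => False : ℕ → ℕ → Prop) p.1 p.2} = 0 := by
      simp
    rw [hr] at key
    simp only [Nat.cast_zero, zero_add, mul_one] at key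
    refine le_trans (univ_num hε ?_) key
    have hK1 : 1 / (K : ℝ) ≤ 1 := by
      rw [div_le_one (by exact_mod_cast hK)]
      exact_mod_cast hK
    have h2 : 2 * (m₀ : ℝ) ^ 2 ≤ ε * ((#H : ℝ) * ((#H : ℝ) - 1)) := by
      have h3 : 2 * (m₀ : ℝ) ^ 2 / ε ≤ (#H : ℝ) * ((#H : ℝ) - 1) := hk₁.trans hT1
      rw [div_le_iff₀ hε] at h3
      linarith
    have h4 : (m₀ : ℝ) ^ 2 * (1 / (K : ℝ)) ≤ (m₀ : ℝ) ^ 2 := by
      have := sq_nonneg (m₀ : ℝ)
      nlinarith
    linarith

end PoolQ4
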