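import Pool.Agent.Work.MP_70e905_nt.Q4.StonePairs
import Pool.Agent.Work.MP_70e905_nt.Q4.SubsetAvg
import Pool.Agent.Work.MP_70e905_nt.Q4.TotW
import Pool.Agent.Work.MP_70e905_nt.Q4.RoughCount
import Pool.Agent.Work.MP_c971ef_nt.Rough

/-!
# Module WtMain : the theorem with the weights `wt`

Let `P = primorial D`, `φ = totient P`. WLOG `ε ≤ 1/(2K)` and `ε ≤ 1` (for larger `ε` the statement
follows from the one for the smaller `ε`; for `1/K - ε < 0` it is trivial). Let `m₀` be from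
`stonePairs K L hK (ε/4)`. For every `v < P` apply `subsetAvg` to `VV D n M v` with
`good a b := P (dist a b)`, `rough a b := η < rough D (dist a b)`, `c := 1/K - ε/4 ≥ 0`: the hypothesis
`H` is `stonePairs` (an injective `h` into `A` with `A ⊆ VV` without rough pairs satisfies the
hypotheses of `Clu`). Sum over `v < P` (`sum_offDiag_VV`, `sum_offDiag_VV_card`):
`∑_{P} wt ≥ c (T - m₀^2 (∑_{rough pairs} wt + P))`, `T := ∑_{offDiag} wt`.
Now `∑_{rough} wt ≤ φ #rough ≤ φ M^2 / (η D)` (`wt_le`, `roughCount`) and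
`T ≥ M^2 φ^2 / P - M φ` (`totW`). `PoolMP..totient_primorial_ge` (file `MP_c971ef_nt/Rough`) gives
`φ ≥ exp(-9) P / log (D+1)`, so for `D ≥ D₂(m₀, η, ε)` : `m₀^2 φ / (η D) ≤ (ε/16) φ^2 / P`
(this needs `16 m₀^2 exp 9 log (D+1) ≤ ε η D`), and for `M ≥ M₀(D)` also `m₀^2 P ≤ (ε/16) M^2 φ^2/P`
and `M φ ≤ (1/2) M^2 φ^2 / P`. So the loss is `≤ (ε/8) M^2 φ^2/P ≤ (ε/4) T`, and
`(1/K - ε/4)(1 - ε/4) ≥ 1/K - ε`.
-/

namespace PoolQ4

open Finset

/-- the averaging over one residue class -/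
private theorem WtMain_avg (K L : ℕ) (η : ℝ) (c : ℝ) (hc : 0 ≤ c) (m₀ : ℕ) (hm₀ : 2 ≤ m₀)
    (hstone : ∀ (A : Finset ℕ) (good : ℕ → ℕ → Prop) [DecidableRel good],
      (∀ a b, good a b → good b a) → #A = m₀ →
      (∀ h : Fin (K + 1) × Fin L → ℕ, Function.Injective h → (∀ s, h s ∈ A) →
        ∃ s t, s.1 ≠ t.1 ∧ good (h s) (h t)) →
      c * ((m₀ : ℝ) * ((m₀ : ℝ) - 1)) ≤ (#{p ∈ A.offDiag | good p.1 p.2} : ℝ))
    (D n M : ℕ) (P : ℕ → Prop) [DecidablePred P] (hclu : Clu K L D n M η P) (v : ℕ) :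
    c * ((#(VV D n M v) : ℝ) * ((#(VV D n M v) : ℝ) - 1) -
        (m₀ : ℝ) ^ 2 * ((#{p ∈ (VV D n M v).offDiag | η < rough D (Nat.dist p.1 p.2)} : ℝ) + 1)) ≤
      (#{p ∈ (VV D n M v).offDiag | P (Nat.dist p.1 p.2)} : ℝ) := by
  refine subsetAvg (VV D n M v) m₀ hm₀ (fun a b => P (Nat.dist a b))
    (fun a b => η < rough D (Nat.dist a b)) c hc ?_
  intro A hA hAc hAr
  refine hstone A (fun a b => P (Nat.dist a b)) ?_ hAc ?_
  · intro a b hab
    rw [Nat.dist_comm]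
    exact hab
  · intro h hinj hmem
    have hVV : ∀ s, h s ∈ VV D n M v := fun s => hA (hmem s)
    refine hclu v h hinj ?_ ?_ ?_
    · intro s
      have h1 := hVV s
      unfold VV at h1
      rw [mem_filter, mem_Icc] at h1
      exact h1.1
    · intro s
      have h1 := hVV s
      unfold VV at h1
      rw [mem_filter, mem_Icc] at h1
      exact h1.2
    · intro s t hst
      have h1 := hAr (h s, h t) (mem_offDiag.2 ⟨hmem s, hmem t, fun h0 => hst (hinj h0)⟩)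
      exact not_lt.1 h1

/-- the sum over all residue classes -/
private theorem WtMain_sum (K L : ℕ) (η : ℝ) (c : ℝ) (hc : 0 ≤ c) (m₀ : ℕ) (hm₀ : 2 ≤ m₀)
    (hstone : ∀ (A : Finset ℕ) (good : ℕ → ℕ → Prop) [DecidableRel good],
      (∀ a b, good a b → good b a) → #A = m₀ →
      (∀ h : Fin (K + 1) × Fin L → ℕ, Function.Injective h → (∀ s, h s ∈ A) →
        ∃ s t, s.1 ≠ t.1 ∧ good (h s) (h t)) →
      c * ((m₀ : ℝ) * ((m₀ : ℝ) - 1)) ≤ (#{p ∈ A.offDiag | good p.1 p.2} : ℝ))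
    (D n M : ℕ) (P : ℕ → Prop) [DecidablePred P] (hclu : Clu K L D n M η P) :
    c * (∑ p ∈ (Icc 1 M).offDiag, (wt D n (Nat.dist p.1 p.2) : ℝ) -
      (m₀ : ℝ) ^ 2 * ((Nat.totient (primorial D) : ℝ) *
        (#{p ∈ (Icc 1 M).offDiag | η < rough D (Nat.dist p.1 p.2)} : ℝ) + primorial D)) ≤
      ∑ p ∈ (Icc 1 M).offDiag.filter (fun p => P (Nat.dist p.1 p.2)),
          (wt D n (Nat.dist p.1 p.2) : ℝ) := by
  classical
  have h1 := sum_le_sum fun v (_ : v ∈ range (primorial D)) =>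
    WtMain_avg K L η c hc m₀ hm₀ hstone D n M P hclu v
  rw [← mul_sum, sum_sub_distrib, sum_offDiag_VV_card, ← mul_sum, sum_add_distrib, sum_const,
    card_range, nsmul_eq_mul, mul_one] at h1
  have h2 : ∑ v ∈ range (primorial D), (#{p ∈ (VV D n M v).offDiag | P (Nat.dist p.1 p.2)} : ℝ) =
      ∑ p ∈ (Icc 1 M).offDiag.filter (fun p => P (Nat.dist p.1 p.2)),
          (wt D n (Nat.dist p.1 p.2) : ℝ) := by
    have h := sum_offDiag_VV D n M (fun p => P (Nat.dist p.1 p.2))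
    have h' : ((∑ v ∈ range (primorial D),
        #{p ∈ (VV D n M v).offDiag | P (Nat.dist p.1 p.2)} : ℕ) : ℝ) =
        ((∑ p ∈ (Icc 1 M).offDiag.filter (fun p => P (Nat.dist p.1 p.2)),
          wt D n (Nat.dist p.1 p.2) : ℕ) : ℝ) := by
      rw [h]
    rw [Nat.cast_sum, Nat.cast_sum] at h'
    exact h'
  have h3 : ∑ v ∈ range (primorial D),
      (#{p ∈ (VV D n M v).offDiag | η < rough D (Nat.dist p.1 p.2)} : ℝ) =
      ∑ p ∈ (Icc 1 M).offDiag.filter (fun p => η < rough D (Nat.dist p.1 p.2)),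
          (wt D n (Nat.dist p.1 p.2) : ℝ) := by
    have h := sum_offDiag_VV D n M (fun p => η < rough D (Nat.dist p.1 p.2))
    have h' : ((∑ v ∈ range (primorial D),
        #{p ∈ (VV D n M v).offDiag | η < rough D (Nat.dist p.1 p.2)} : ℕ) : ℝ) =
        ((∑ p ∈ (Icc 1 M).offDiag.filter (fun p => η < rough D (Nat.dist p.1 p.2)),
          wt D n (Nat.dist p.1 p.2) : ℕ) : ℝ) := by
      rw [h]
    rw [Nat.cast_sum, Nat.cast_sum] at h'
    exact h'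
  have h4 : ∑ p ∈ (Icc 1 M).offDiag.filter (fun p => η < rough D (Nat.dist p.1 p.2)),
      (wt D n (Nat.dist p.1 p.2) : ℝ) ≤ (Nat.totient (primorial D) : ℝ) *
        (#{p ∈ (Icc 1 M).offDiag | η < rough D (Nat.dist p.1 p.2)} : ℝ) := by
    calc _ ≤ ∑ p ∈ (Icc 1 M).offDiag.filter (fun p => η < rough D (Nat.dist p.1 p.2)),
          (Nat.totient (primorial D) : ℝ) :=
            sum_le_sum fun p _ => by exact_mod_cast wt_le D n (Nat.dist p.1 p.2)
      _ = _ := by rw [sum_const, nsmul_eq_mul, mul_comm]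
  rw [h2, h3] at h1
  refine le_trans (mul_le_mul_of_nonneg_left ?_ hc) h1
  have h5 : (0 : ℝ) ≤ (m₀ : ℝ) ^ 2 := by positivity
  have h6 := mul_le_mul_of_nonneg_left h4 h5
  have h7 : (m₀ : ℝ) ^ 2 * (∑ p ∈ (Icc 1 M).offDiag.filter (fun p => η < rough D (Nat.dist p.1 p.2)),
      (wt D n (Nat.dist p.1 p.2) : ℝ) + primorial D) ≤ (m₀ : ℝ) ^ 2 *
      ((Nat.totient (primorial D) : ℝ) *
        (#{p ∈ (Icc 1 M).offDiag | η < rough D (Nat.dist p.1 p.2)} : ℝ) + primorial D) := by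
    rw [mul_add, mul_add]
    linarith
  linarith

theorem wtMain (K L : ℕ) (hK : 1 ≤ K) (η : ℝ) (hη : 0 < η) (ε : ℝ) (hε : 0 < ε) :
    ∃ D₂ : ℕ, ∀ D : ℕ, D₂ ≤ D → ∃ M₀ : ℕ, ∀ n M : ℕ, M₀ ≤ M →
      ∀ (P : ℕ → Prop) [DecidablePred P], Clu K L D n M η P →
      (1 / (K : ℝ) - ε) * ∑ p ∈ (Icc 1 M).offDiag, (wt D n (Nat.dist p.1 p.2) : ℝ) ≤
        ∑ p ∈ (Icc 1 M).offDiag.filter (fun p => P (Nat.dist p.1 p.2)),
          (wt D n (Nat.dist p.1 p.2) : ℝ) := by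
  have hKpos : (0 : ℝ) < K := by exact_mod_cast hK
  have hK1 : 1 / (K : ℝ) ≤ 1 := by
    rw [div_le_one hKpos]
    exact_mod_cast hK
  have hK0 : 0 < 1 / (K : ℝ) := by positivity
  obtain ⟨e, he, heε, heK⟩ : ∃ e : ℝ, 0 < e ∧ e ≤ ε ∧ e ≤ 1 / (K : ℝ) :=
    ⟨min ε (1 / K), lt_min hε hK0, min_le_left _ _, min_le_right _ _⟩
  obtain ⟨m₀, hm₀, hstone⟩ := stonePairs K L hK (ε := e / 4) (by positivity)
  have hm₀' : (0 : ℝ) < (m₀ : ℝ) ^ 2 := by
    have : 0 < m₀ := by omega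
    positivity
  -- the size of `D`
  have hlog : ∃ D₁ : ℕ, ∀ D : ℕ, D₁ ≤ D →
      16 * (m₀ : ℝ) ^ 2 * Real.exp 9 * Real.log ((D : ℝ) + 1) ≤ e * η * D := by
    have hc : 0 < e * η / (32 * (m₀ : ℝ) ^ 2 * Real.exp 9) := by positivity
    have h1 := Real.isLittleO_log_id_atTop.def hc
    have h2 : Filter.Tendsto (fun D : ℕ => (D : ℝ) + 1) Filter.atTop Filter.atTop :=
      Filter.tendsto_atTop_add_const_right _ _ tendsto_natCast_atTop_atTop
    obtain ⟨D₁, hD₁⟩ := Filter.eventually_atTop.1 (h2.eventually h1)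
    refine ⟨max D₁ 1, fun D hD => ?_⟩
    have h3 := hD₁ D ((le_max_left _ _).trans hD)
    have hD1 : (1 : ℝ) ≤ D := by exact_mod_cast (le_max_right _ _).trans hD
    rw [Real.norm_of_nonneg (Real.log_nonneg (by linarith))] at h3
    simp only [id] at h3
    rw [Real.norm_of_nonneg (by linarith : (0 : ℝ) ≤ (D : ℝ) + 1)] at h3
    have h4 : e * η / (32 * (m₀ : ℝ) ^ 2 * Real.exp 9) * ((D : ℝ) + 1) ≤
        e * η / (32 * (m₀ : ℝ) ^ 2 * Real.exp 9) * (2 * D) :=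
      mul_le_mul_of_nonneg_left (by linarith) hc.le
    calc 16 * (m₀ : ℝ) ^ 2 * Real.exp 9 * Real.log ((D : ℝ) + 1)
        ≤ 16 * (m₀ : ℝ) ^ 2 * Real.exp 9 *
          (e * η / (32 * (m₀ : ℝ) ^ 2 * Real.exp 9) * (2 * D)) :=
          mul_le_mul_of_nonneg_left (h3.trans h4) (by positivity)
      _ = e * η * D := by
          field_simp
          ring
  obtain ⟨D₁, hD₁⟩ := hlog
  refine ⟨max D₁ 2, fun D hD => ?_⟩
  have hD1 := hD₁ D ((le_max_left _ _).trans hD)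
  have hD2 : 2 ≤ D := (le_max_right _ _).trans hD
  have hDpos : (0 : ℝ) < D := by
    have : 0 < D := by omega
    exact_mod_cast this
  have hP : (0 : ℝ) < primorial D := by exact_mod_cast primorial_pos D
  have hφ0 : 0 < Nat.totient (primorial D) := Nat.totient_pos.2 (primorial_pos D)
  set p : ℝ := (primorial D : ℝ) with hp
  set φ : ℝ := (Nat.totient (primorial D) : ℝ) with hφ
  have hφpos : 0 < φ := Nat.cast_pos.2 hφ0
  -- the main inequality for `D`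
  have hkey : 16 * (m₀ : ℝ) ^ 2 * p ≤ e * η * D * φ := by
    have h1 : Real.exp (-9) / Real.log (D + 1) * p ≤ φ := Pool.Agent.Work.MP_c971ef_nt.totient_primorial_ge hD2
    have hlogpos : 0 < Real.log ((D : ℝ) + 1) := Real.log_pos (by linarith)
    rw [div_mul_eq_mul_div, div_le_iff₀ hlogpos] at h1
    have h2 : p ≤ Real.exp 9 * (φ * Real.log ((D : ℝ) + 1)) := by
      calc p = Real.exp 9 * (Real.exp (-9) * p) := by
            rw [← mul_assoc, ← Real.exp_add]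
            norm_num
        _ ≤ _ := mul_le_mul_of_nonneg_left h1 (Real.exp_pos 9).le
    calc 16 * (m₀ : ℝ) ^ 2 * p ≤ 16 * (m₀ : ℝ) ^ 2 * (Real.exp 9 * (φ * Real.log ((D : ℝ) + 1))) :=
          mul_le_mul_of_nonneg_left h2 (by positivity)
      _ = (16 * (m₀ : ℝ) ^ 2 * Real.exp 9 * Real.log ((D : ℝ) + 1)) * φ := by ring
      _ ≤ _ := mul_le_mul_of_nonneg_right hD1 hφpos.le
  set κ : ℝ := φ ^ 2 / p with hκ
  have hκpos : 0 < κ := by positivity
  refine ⟨⌈max (16 * (m₀ : ℝ) ^ 2 * p / (e * κ)) (2 * φ / κ)⌉₊ + 1, fun n M hM P _ hclu => ?_⟩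
  have hM1 : max (16 * (m₀ : ℝ) ^ 2 * p / (e * κ)) (2 * φ / κ) ≤ M := by
    refine (Nat.le_ceil _).trans ?_
    have : ⌈max (16 * (m₀ : ℝ) ^ 2 * p / (e * κ)) (2 * φ / κ)⌉₊ ≤ M := by omega
    exact_mod_cast this
  have hM0 : (1 : ℝ) ≤ M := by
    have : 1 ≤ M := by omega
    exact_mod_cast this
  have hM2 : 16 * (m₀ : ℝ) ^ 2 * p ≤ e * κ * M := by
    have h1 := (le_max_left _ _).trans hM1
    rw [div_le_iff₀ (by positivity)] at h1
    linarith
  have hM3 : 2 * φ ≤ κ * M := by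
    have h1 := (le_max_right _ _).trans hM1
    rw [div_le_iff₀ (by positivity)] at h1
    linarith
  have hsum := WtMain_sum K L η (1 / (K : ℝ) - e / 4) (by linarith) m₀ hm₀
    (fun A good _ h1 h2 h3 => hstone A good h1 h2 h3) D n M P hclu
  have hrc := roughCount D M (by omega) η hη
  have htot := totW D n M
  set T : ℝ := ∑ p ∈ (Icc 1 M).offDiag, (wt D n (Nat.dist p.1 p.2) : ℝ) with hT
  set R : ℝ := (#{p ∈ (Icc 1 M).offDiag | η < rough D (Nat.dist p.1 p.2)} : ℝ) with hR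
  have hT0 : 0 ≤ T := sum_nonneg fun p _ => Nat.cast_nonneg _
  have hTκ : (M : ℝ) ^ 2 * κ / 2 ≤ T := by
    have h1 : (M : ℝ) ^ 2 * φ ^ 2 / p = (M : ℝ) ^ 2 * κ := by
      rw [hκ]
      ring
    rw [h1] at htot
    have h2 : (M : ℝ) * φ ≤ (M : ℝ) ^ 2 * κ / 2 := by nlinarith
    linarith
  have hloss : (m₀ : ℝ) ^ 2 * (φ * R + p) ≤ e / 4 * T := by
    have h1 : (m₀ : ℝ) ^ 2 * (φ * R) ≤ e / 16 * ((M : ℝ) ^ 2 * κ) := by
      have h2 : 16 * ((m₀ : ℝ) ^ 2 * p) * R ≤ e * φ * (M : ℝ) ^ 2 := by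
        have hR0 : 0 ≤ R := Nat.cast_nonneg _
        calc 16 * ((m₀ : ℝ) ^ 2 * p) * R = (16 * (m₀ : ℝ) ^ 2 * p) * R := by ring
          _ ≤ (e * η * D * φ) * R := mul_le_mul_of_nonneg_right hkey hR0
          _ = e * φ * (η * D * R) := by ring
          _ ≤ e * φ * (M : ℝ) ^ 2 := mul_le_mul_of_nonneg_left hrc (by positivity)
      rw [hκ]
      have h3 : e / 16 * ((M : ℝ) ^ 2 * (φ ^ 2 / p)) = (e * φ * (M : ℝ) ^ 2) * φ / (16 * p) := by
        field_simp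
      rw [h3, le_div_iff₀ (by positivity)]
      calc (m₀ : ℝ) ^ 2 * (φ * R) * (16 * p) = (16 * ((m₀ : ℝ) ^ 2 * p) * R) * φ := by ring
        _ ≤ _ := mul_le_mul_of_nonneg_right h2 hφpos.le
    have h2 : (m₀ : ℝ) ^ 2 * p ≤ e / 16 * ((M : ℝ) ^ 2 * κ) := by
      have h3 : e * κ * M ≤ e * κ * (M : ℝ) ^ 2 := by
        apply mul_le_mul_of_nonneg_left _ (by positivity)
        nlinarith
      linarith
    have h3 : (m₀ : ℝ) ^ 2 * (φ * R + p) = (m₀ : ℝ) ^ 2 * (φ * R) + (m₀ : ℝ) ^ 2 * p := by ring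
    rw [h3]
    have h4 := mul_le_mul_of_nonneg_left hTκ (by positivity : (0 : ℝ) ≤ e / 4)
    linarith
  refine le_trans ?_ hsum
  have hc0 : 0 ≤ 1 / (K : ℝ) - e / 4 := by linarith
  calc (1 / (K : ℝ) - ε) * T ≤ (1 / (K : ℝ) - e) * T :=
        mul_le_mul_of_nonneg_right (by linarith) hT0
    _ ≤ ((1 / (K : ℝ) - e / 4) * (1 - e / 4)) * T := by
        refine mul_le_mul_of_nonneg_right ?_ hT0
        nlinarith
    _ = (1 / (K : ℝ) - e / 4) * (T - e / 4 * T) := by ring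
    _ ≤ _ := mul_le_mul_of_nonneg_left (by linarith) hc0

end PoolQ4
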